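import Pool.Agent.Lib.MP_7a59f9_co.Core

/-!
Asymptotic form of the steps: everything is scaled by an integer `k` that tends to infinity.
-/

namespace Pool.Agent.MP_7a59f9_co

open Finset Filter Topology

set_option linter.unusedSectionVars false

/-! ### The covering inequality -/

theorem factor_ineq (b y k p l j : ℕ) (hb : b + l ≤ y) (hp : p ≤ y * k) :
    (p - b * k - (l * k + j)) * (y - l) ≤ (y - b - l) * (p - (l * k + j)) := by
  obtain ⟨Y, hY⟩ : ∃ Y, y = Y + b + l := ⟨y - b - l, by omega⟩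
  subst hY
  have h1 : Y + b + l - l = Y + b := by omega
  have h2 : Y + b + l - b - l = Y := by omega
  rw [h1, h2]
  set Z := p - (l * k + j) with hZ
  have h3 : p - b * k - (l * k + j) = Z - b * k := by omega
  rw [h3]
  rcases Nat.le_total Z (b * k) with h | h
  · rw [Nat.sub_eq_zero_of_le h, Nat.zero_mul]; exact Nat.zero_le _
  · obtain ⟨X, hX⟩ := Nat.exists_eq_add_of_le h
    have h4 : Z - b * k = X := by omega
    rw [h4, hX]
    have h5 : Z ≤ (Y + b) * k := by
      have e1 : (Y + b + l) * k = (Y + b) * k + l * k := by ring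
      rw [e1] at hp
      omega
    have h6 : X ≤ Y * k := by
      have e2 : (Y + b) * k = Y * k + b * k := by ring
      rw [e2] at h5
      omega
    calc X * (Y + b) = Y * X + b * X := by ring
      _ ≤ Y * X + b * (Y * k) := Nat.add_le_add_left (Nat.mul_le_mul_left _ h6) _
      _ = Y * (b * k + X) := by ring

theorem desc_scaled (b y k p : ℕ) (hp : p ≤ y * k) (q : ℕ) (hb : b + q ≤ y) :
    (p - b * k).descFactorial (q * k) * (y.descFactorial q) ^ k ≤
      ((y - b).descFactorial q) ^ k * p.descFactorial (q * k) := by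
  induction q with
  | zero => simp
  | succ q ih =>
    have hb' : b + q ≤ y := by omega
    have ih' := ih hb'
    have key : ∀ n : ℕ, n.descFactorial ((q + 1) * k) =
        n.descFactorial (q * k) * ∏ j ∈ range k, (n - (q * k + j)) := by
      intro n
      rw [Nat.descFactorial_eq_prod_range, Nat.descFactorial_eq_prod_range,
        show (q + 1) * k = q * k + k by ring, Finset.prod_range_add]
    rw [key, key, Nat.descFactorial_succ, Nat.descFactorial_succ, mul_pow, mul_pow]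
    have h1 : (∏ j ∈ range k, (p - b * k - (q * k + j))) * (y - q) ^ k ≤
        (y - b - q) ^ k * ∏ j ∈ range k, (p - (q * k + j)) := by
      have e1 : (y - q) ^ k = ∏ _j ∈ range k, (y - q) := by rw [Finset.prod_const, Finset.card_range]
      have e2 : (y - b - q) ^ k = ∏ _j ∈ range k, (y - b - q) := by
        rw [Finset.prod_const, Finset.card_range]
      rw [e1, e2, ← Finset.prod_mul_distrib, ← Finset.prod_mul_distrib]
      exact Finset.prod_le_prod' (fun j _ => factor_ineq b y k p q j hb' hp)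
    calc _ = ((p - b * k).descFactorial (q * k) * (y.descFactorial q) ^ k) *
        ((∏ j ∈ range k, (p - b * k - (q * k + j))) * (y - q) ^ k) := by ring
      _ ≤ (((y - b).descFactorial q) ^ k * p.descFactorial (q * k)) *
        ((y - b - q) ^ k * ∏ j ∈ range k, (p - (q * k + j))) := Nat.mul_le_mul ih' h1
      _ = _ := by ring

theorem choose_scaled (b y k p q : ℕ) (hp : p ≤ y * k) (hb : b + q ≤ y) :
    (p - b * k).choose (q * k) * (y.choose q) ^ k ≤ ((y - b).choose q) ^ k * p.choose (q * k) := by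
  have h := desc_scaled b y k p hp q hb
  rw [Nat.descFactorial_eq_factorial_mul_choose, Nat.descFactorial_eq_factorial_mul_choose,
    Nat.descFactorial_eq_factorial_mul_choose, Nat.descFactorial_eq_factorial_mul_choose,
    mul_pow, mul_pow] at h
  have hpos : 0 < (q * k).factorial * q.factorial ^ k :=
    Nat.mul_pos (Nat.factorial_pos _) (pow_pos (Nat.factorial_pos _) _)
  refine Nat.le_of_mul_le_mul_left ?_ hpos
  calc _ = (q * k).factorial * (p - b * k).choose (q * k) * (q.factorial ^ k * y.choose q ^ k) := by ring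
    _ ≤ _ := h
    _ = _ := by ring

/-- The covering condition at scale `k`. -/
theorem cov_cond (q Q y k : ℕ) (hk : 1 ≤ k) (hqy : q + q ≤ y) (hQ : 1 ≤ Q)
    (hcert : 2 ^ Q * (y - q).choose q < y.choose q) (p : ℕ) (hp1 : q * k < p) (hp2 : p ≤ y * k) :
    2 * 2 ^ (Q * k - 1) * (p - q * k - 1).choose (q * k) < p.choose (q * k) := by
  have h1 : 2 * 2 ^ (Q * k - 1) = (2 ^ Q) ^ k := by
    have : 1 ≤ Q * k := Nat.mul_pos hQ hk
    rw [← pow_mul, ← pow_succ']; congr 1; omega
  rw [h1]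
  have h2 : (p - q * k - 1).choose (q * k) ≤ (p - q * k).choose (q * k) :=
    Nat.choose_le_choose _ (Nat.sub_le _ _)
  have h3 := choose_scaled q y k p q hp2 hqy
  have hypos : 0 < y.choose q := Nat.choose_pos (by omega)
  have hppos : 0 < p.choose (q * k) := Nat.choose_pos (by omega)
  have h4 : (2 ^ Q) ^ k * ((y - q).choose q) ^ k < (y.choose q) ^ k := by
    rw [← mul_pow]; exact Nat.pow_lt_pow_left hcert (by omega)
  refine lt_of_le_of_lt (Nat.mul_le_mul_left _ h2) ?_
  refine lt_of_mul_lt_mul_right (a := (y.choose q) ^ k) ?_ (Nat.zero_le _)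
  calc (2 ^ Q) ^ k * (p - q * k).choose (q * k) * (y.choose q) ^ k
      = (2 ^ Q) ^ k * ((p - q * k).choose (q * k) * (y.choose q) ^ k) := by ring
    _ ≤ (2 ^ Q) ^ k * (((y - q).choose q) ^ k * p.choose (q * k)) := Nat.mul_le_mul_left _ h3
    _ = ((2 ^ Q) ^ k * ((y - q).choose q) ^ k) * p.choose (q * k) := by ring
    _ < (y.choose q) ^ k * p.choose (q * k) := Nat.mul_lt_mul_of_pos_right h4 hppos
    _ = p.choose (q * k) * (y.choose q) ^ k := by ring

/-! ### Eventual goodness -/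

/-- For families of `2 ^ (q' k - 1)` members, atoms of level `r - t` with at most `y k` points are good. -/
def EvGood (q q' t y : ℕ) : Prop :=
  ∀ r : ℕ, ∃ k0 : ℕ, ∀ k ≥ k0, ∀ (n : ℕ) (a : Fin (2 ^ (q' * k - 1)) → Fin n → Bool),
    QIb r a → Good a (q * k) r t (y * k)

theorem two_pow_large (q' r : ℕ) (hq' : 1 ≤ q') : ∃ k0 : ℕ, ∀ k ≥ k0, r ≤ 2 ^ (q' * k - 1) := by
  refine ⟨r + 1, fun k hk => ?_⟩
  have h1 : r ≤ q' * k - 1 := by
    have : k ≤ q' * k := Nat.le_mul_of_pos_left k hq'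
    omega
  exact le_trans h1 (Nat.lt_two_pow_self).le

/-- The covering step; the certificate may be given at a reduced scale. -/
theorem ev_two (h q Q y : ℕ) (hh : 1 ≤ h) (hq : 1 ≤ q) (hqy : q + q ≤ y) (hQ : 1 ≤ Q)
    (hcert : 2 ^ Q * (y - q).choose q < y.choose q) : EvGood (h * q) (h * Q) 2 (h * y) := by
  intro r
  obtain ⟨k0, hk0⟩ := two_pow_large (h * Q) r (Nat.mul_pos hh hQ)
  refine ⟨max k0 1, fun k hk n a ha => ?_⟩
  have hk1 : 1 ≤ k := le_trans (le_max_right _ _) hk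
  have hr : r ≤ Fintype.card (Fin (2 ^ (h * Q * k - 1))) := by
    rw [Fintype.card_fin]; exact hk0 k (le_trans (le_max_left _ _) hk)
  refine good_two ha hr (Nat.mul_pos (Nat.mul_pos hh hq) hk1) ?_
  intro p hp1 hp2
  rw [Fintype.card_fin]
  have e1 : h * q * k = q * (h * k) := by ring
  have e2 : h * Q * k = Q * (h * k) := by ring
  have e3 : h * y * k = y * (h * k) := by ring
  rw [e1] at hp1 ⊢
  rw [e3] at hp2
  rw [e2]
  exact cov_cond q Q y (h * k) (Nat.mul_pos hh hk1) hqy hQ hcert p hp1 hp2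

/-- The pair step. -/
theorem ev_pair (q q' t yt y z z' : ℕ) (hev : EvGood q q' t yt) (hq' : 1 ≤ q') (hz : 0 < z)
    (hzz : z < z') (hzy : z' < y) (h4 : 4 * yt ≤ y)
    (hL : ((y : ℝ) - 4 * yt) ^ 2 < 4 * (z * (y - z)))
    (hE : (Real.exp 1 * y / z') ^ z' < 2 ^ q') : EvGood q q' (t + 2) y := by
  intro r
  obtain ⟨k0, hk0⟩ := hev r
  -- choice of w
  set A : ℝ := (y : ℝ) - 4 * yt with hA
  set B : ℝ := 4 * (z * (y - z)) with hB
  have hA0 : 0 ≤ A := by
    have : (4 * yt : ℝ) ≤ y := by exact_mod_cast h4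
    linarith
  have hlim : Tendsto (fun w : ℕ => B * ((w : ℝ) / (w + 1)) ^ 2) atTop (𝓝 (B * 1 ^ 2)) := by
    refine Tendsto.const_mul _ (Tendsto.pow ?_ 2)
    exact tendsto_natCast_div_add_atTop (1 : ℝ)
  rw [one_pow, mul_one] at hlim
  obtain ⟨w, hw⟩ := (hlim.eventually (lt_mem_nhds hL)).exists
  set ρ : ℝ := (w : ℝ) / (w + 1) with hρ
  have hρ0 : 0 ≤ ρ := by positivity
  have hgap : 0 < B * ρ ^ 2 - A ^ 2 := by linarith
  -- k large for the spectral condition
  obtain ⟨k1, hk1⟩ := exists_nat_gt (8 * (z * w * ρ ^ 2) / (B * ρ ^ 2 - A ^ 2))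
  -- k large for the size condition
  set E : ℝ := (Real.exp 1 * y / z') ^ z' with hEdef
  have hz'R : (0 : ℝ) < z' := by exact_mod_cast (lt_trans hz hzz)
  have hyz' : (z' : ℝ) < y := by exact_mod_cast hzy
  have hE1 : 1 ≤ E := by
    rw [hEdef]
    apply one_le_pow₀
    rw [le_div_iff₀ hz'R, one_mul]
    have h1 : (1 : ℝ) ≤ Real.exp 1 := Real.one_le_exp (by norm_num)
    nlinarith
  have hx0 : 0 ≤ E / 2 ^ q' := by positivity
  have hx1 : E / 2 ^ q' < 1 := by
    rw [div_lt_one (by positivity)]; exact hE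
  have hlim2 : Tendsto (fun k : ℕ => (8 * (yt : ℝ)) * ((k : ℝ) ^ 1 * (E / 2 ^ q') ^ k) +
      (8 + 2 * (r : ℝ)) * ((k : ℝ) ^ 0 * (E / 2 ^ q') ^ k)) atTop (𝓝 (8 * (yt : ℝ) * 0 + (8 + 2 * (r : ℝ)) * 0)) := by
    exact (Tendsto.const_mul _ (tendsto_pow_const_mul_const_pow_of_lt_one 1 hx0 hx1)).add
      (Tendsto.const_mul _ (tendsto_pow_const_mul_const_pow_of_lt_one 0 hx0 hx1))
  rw [mul_zero, mul_zero, add_zero] at hlim2
  obtain ⟨k2, hk2⟩ := (hlim2.eventually (gt_mem_nhds (zero_lt_one))).exists_forall_of_atTop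
  refine ⟨max (max k0 k1) (max k2 (2 * w + 1)), fun k hk n a ha => ?_⟩
  have hkk0 : k0 ≤ k := le_trans (le_trans (le_max_left _ _) (le_max_left _ _)) hk
  have hkk1 : k1 ≤ k := le_trans (le_trans (le_max_right _ _) (le_max_left _ _)) hk
  have hkk2 : k2 ≤ k := le_trans (le_trans (le_max_left _ _) (le_max_right _ _)) hk
  have hkk3 : 2 * w + 1 ≤ k := le_trans (le_trans (le_max_right _ _) (le_max_right _ _)) hk
  have hkpos : 1 ≤ k := by omega
  have hkR : (0 : ℝ) < k := by exact_mod_cast hkpos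
  refine good_pair (hk0 k hkk0 n a ha) (z * k + w) w (z' * k) ?_ ?_ ?_ ?_ ?_
  · have : 0 < z * k := Nat.mul_pos hz hkpos
    omega
  · have h1 : (z + 1) * k ≤ z' * k := Nat.mul_le_mul_right k hzz
    have h2 : (z + 1) * k = z * k + k := by ring
    omega
  · exact Nat.mul_lt_mul_of_pos_right hzy hkpos
  · -- spectral condition
    push_cast
    have e1 : ((z : ℝ) * k + w - w) * ((y : ℝ) * k - (z * k + w) - w) =
        (z * k) * ((y - z) * k - 2 * w) := by ring
    rw [e1]
    have h5 : 8 * (z * w * ρ ^ 2) ≤ k * (B * ρ ^ 2 - A ^ 2) := by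
      have h6 : 8 * (z * w * ρ ^ 2) / (B * ρ ^ 2 - A ^ 2) < k := lt_of_lt_of_le hk1 (by exact_mod_cast hkk1)
      rw [div_lt_iff₀ hgap] at h6
      exact h6.le
    have h7 : (A * k) ^ 2 ≤ (2 * ρ) ^ 2 * ((z * k) * ((y - z) * k - 2 * w)) := by
      have h8 : (2 * ρ) ^ 2 * ((z * k) * ((y - z) * k - 2 * w)) - (A * k) ^ 2 =
          k * (k * (B * ρ ^ 2 - A ^ 2) - 8 * (z * w * ρ ^ 2)) := by
        simp only [hB]; ring
      have h9 : 0 ≤ k * (k * (B * ρ ^ 2 - A ^ 2) - 8 * (z * w * ρ ^ 2)) :=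
        mul_nonneg hkR.le (by linarith)
      linarith
    have h10 : A * k ≤ 2 * Real.sqrt ((z * k) * ((y - z) * k - 2 * w)) * ρ := by
      have h11 : A * k ≤ Real.sqrt ((2 * ρ) ^ 2 * ((z * k) * ((y - z) * k - 2 * w))) :=
        Real.le_sqrt_of_sq_le h7
      rw [Real.sqrt_mul (sq_nonneg _), Real.sqrt_sq (by positivity)] at h11
      linarith
    have h12 : (y : ℝ) * k - 4 * (yt * k + 1) + 1 = A * k - 3 := by simp only [hA]; ring
    rw [h12]
    linarith
  · -- size condition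
    rw [Fintype.card_fin]
    push_cast
    have e2 : (Real.exp 1 * (y * k) / (z' * k)) ^ (z' * k) = E ^ k := by
      rw [hEdef, ← pow_mul]
      congr 1
      field_simp
    rw [e2]
    have h13 := hk2 k hkk2
    have h14 : (0 : ℝ) < (2 ^ q') ^ k := by positivity
    have e3 : (8 * (yt : ℝ)) * ((k : ℝ) ^ 1 * (E / 2 ^ q') ^ k) +
      (8 + 2 * (r : ℝ)) * ((k : ℝ) ^ 0 * (E / 2 ^ q') ^ k) =
      ((8 * (yt * k + 1) + 2 * r) * E ^ k) / (2 ^ q') ^ k := by
      rw [div_pow]; ring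
    rw [e3, div_lt_one h14] at h13
    have h15 : (1 : ℝ) ≤ E ^ k := one_le_pow₀ hE1
    have h16 : (2 : ℝ) ^ (q' * k - 1) * 2 = (2 ^ q') ^ k := by
      have : 1 ≤ q' * k := Nat.mul_pos hq' hkpos
      rw [← pow_succ, ← pow_mul]; congr 1; omega
    have hrn : (0 : ℝ) ≤ r := Nat.cast_nonneg _
    nlinarith

end Pool.Agent.MP_7a59f9_co
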