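import Pool.Agent.Lib.MP_7a59f9_co.SignLP

/-!
A nonnegative vector on a ball of subsets with large eigenvalue, and the resulting bound for sign vectors with
bounded correlations.
-/

namespace Pool.Agent.MP_7a59f9_co

open Finset

set_option linter.unusedSectionVars false

/-- The tent function of half width `w` centred at `c0`. -/
noncomputable def tent (c0 w : ℕ) (j : ℤ) : ℝ := max 0 ((w : ℝ) + 1 - |(j : ℝ) - c0|)

theorem tent_nonneg (c0 w : ℕ) (j : ℤ) : 0 ≤ tent c0 w j := le_max_left _ _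

theorem tent_zero (c0 w : ℕ) (j : ℤ) (h : (w : ℤ) + 1 ≤ |j - c0|) : tent c0 w j = 0 := by
  unfold tent
  apply max_eq_left
  have : ((w : ℝ) + 1) ≤ |(j : ℝ) - c0| := by
    have := (Int.cast_le (R := ℝ)).2 h
    push_cast at this
    exact this
  linarith

theorem tent_pos_range (c0 w : ℕ) (j : ℤ) (h : tent c0 w j ≠ 0) : |j - c0| ≤ w := by
  by_contra h1
  push Not at h1
  exact h (tent_zero c0 w j (by omega))

theorem tent_eq (c0 w : ℕ) (j : ℤ) (h : |j - c0| ≤ w + 1) :
    tent c0 w j = (w : ℝ) + 1 - |(j : ℝ) - c0| := by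
  unfold tent
  apply max_eq_right
  have : |(j : ℝ) - c0| ≤ (w : ℝ) + 1 := by
    have := (Int.cast_le (R := ℝ)).2 h
    push_cast at this
    exact this
  linarith

theorem tent_step (c0 w : ℕ) (j : ℤ) (h : |j - c0| ≤ w) :
    2 * (w / (w + 1) : ℝ) * tent c0 w j ≤ tent c0 w (j - 1) + tent c0 w (j + 1) := by
  have hw : (0 : ℝ) < (w : ℝ) + 1 := by positivity
  have h1 : |j - 1 - c0| ≤ w + 1 := by
    rw [abs_le] at h ⊢; omega
  have h2 : |j + 1 - c0| ≤ w + 1 := by
    rw [abs_le] at h ⊢; omega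
  rw [tent_eq c0 w j (by rw [abs_le] at h ⊢; omega), tent_eq c0 w (j - 1) h1, tent_eq c0 w (j + 1) h2]
  push_cast
  by_cases hj : j = c0
  · subst hj
    have e1 : |((c0 : ℤ) : ℝ) - 1 - (c0 : ℝ)| = 1 := by
      rw [show ((c0 : ℤ) : ℝ) - 1 - (c0 : ℝ) = -1 by push_cast; ring]; simp
    have e2 : |((c0 : ℤ) : ℝ) + 1 - (c0 : ℝ)| = 1 := by
      rw [show ((c0 : ℤ) : ℝ) + 1 - (c0 : ℝ) = 1 by push_cast; ring]; simp
    have e3 : |((c0 : ℤ) : ℝ) - (c0 : ℝ)| = 0 := by
      rw [show ((c0 : ℤ) : ℝ) - (c0 : ℝ) = 0 by push_cast; ring]; simp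
    rw [e1, e2, e3]
    have : 2 * (w / (w + 1) : ℝ) * ((w : ℝ) + 1 - 0) = 2 * w := by
      field_simp
      ring
    rw [this]
    linarith
  · have hfac : (w / (w + 1) : ℝ) ≤ 1 := by
      rw [div_le_one hw]; linarith
    have hpos : 0 ≤ (w : ℝ) + 1 - |(j : ℝ) - c0| := by
      have := (Int.cast_le (R := ℝ)).2 h
      push_cast at this
      linarith
    have hle : 2 * (w / (w + 1) : ℝ) * ((w : ℝ) + 1 - |(j : ℝ) - c0|) ≤
        2 * ((w : ℝ) + 1 - |(j : ℝ) - c0|) := by
      nlinarith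
    refine le_trans hle ?_
    rcases lt_or_gt_of_ne hj with h3 | h3
    · have h4 : (j : ℝ) + 1 ≤ c0 := by
        have : j + 1 ≤ c0 := by omega
        exact_mod_cast this
      rw [abs_of_nonpos (by linarith : (j : ℝ) - c0 ≤ 0),
        abs_of_nonpos (by linarith : (j : ℝ) - 1 - c0 ≤ 0),
        abs_of_nonpos (by linarith : (j : ℝ) + 1 - c0 ≤ 0)]
      linarith
    · have h4 : (c0 : ℝ) + 1 ≤ j := by
        have : (c0 : ℤ) + 1 ≤ j := by omega
        exact_mod_cast this
      rw [abs_of_nonneg (by linarith : 0 ≤ (j : ℝ) - c0),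
        abs_of_nonneg (by linarith : 0 ≤ (j : ℝ) - 1 - c0),
        abs_of_nonneg (by linarith : 0 ≤ (j : ℝ) + 1 - c0)]
      linarith

variable {P : Type*} [Fintype P] [DecidableEq P]

/-- The nonnegative vector on subsets. -/
noncomputable def vec (c0 w : ℕ) (β : ℝ) (K : Finset P) : ℝ := β ^ K.card * tent c0 w K.card

theorem card_symmDiff_single_mem (K : Finset P) (x : P) (hx : x ∈ K) :
    (symmDiff K {x}).card = K.card - 1 := by
  have h1 : symmDiff K {x} = K.erase x := by
    ext y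
    simp only [Finset.mem_symmDiff, Finset.mem_singleton, Finset.mem_erase]
    by_cases hy : y = x
    · subst hy; simp [hx]
    · simp [hy]
  rw [h1, Finset.card_erase_of_mem hx]

theorem card_symmDiff_single_notMem (K : Finset P) (x : P) (hx : x ∉ K) :
    (symmDiff K {x}).card = K.card + 1 := by
  have h1 : symmDiff K {x} = insert x K := by
    ext y
    simp only [Finset.mem_symmDiff, Finset.mem_singleton, Finset.mem_insert]
    by_cases hy : y = x
    · subst hy; simp [hx]
    · simp [hy]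
  rw [h1, Finset.card_insert_of_notMem hx]

theorem vec_sum (c0 w : ℕ) (β : ℝ) (K : Finset P) :
    ∑ x, vec c0 w β (symmDiff K {x}) =
      K.card * (β ^ (K.card - 1) * tent c0 w ((K.card - 1 : ℕ) : ℤ)) +
      (Fintype.card P - K.card) * (β ^ (K.card + 1) * tent c0 w ((K.card + 1 : ℕ) : ℤ)) := by
  classical
  rw [← Finset.sum_add_sum_compl K]
  congr 1
  · have : ∀ x ∈ K, vec c0 w β (symmDiff K {x}) =
        β ^ (K.card - 1) * tent c0 w ((K.card - 1 : ℕ) : ℤ) := by
      intro x hx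
      unfold vec
      rw [card_symmDiff_single_mem K x hx]
    rw [Finset.sum_congr rfl this]
    simp
  · have : ∀ x ∈ Kᶜ, vec c0 w β (symmDiff K {x}) =
        β ^ (K.card + 1) * tent c0 w ((K.card + 1 : ℕ) : ℤ) := by
      intro x hx
      unfold vec
      rw [card_symmDiff_single_notMem K x (Finset.mem_compl.1 hx)]
    rw [Finset.sum_congr rfl this]
    rw [Finset.sum_const, Finset.card_compl, nsmul_eq_mul,
      Nat.cast_sub (Finset.card_le_univ K)]

theorem vec_eigen (c0 w : ℕ) (hw : w < c0) (hN : c0 + w < Fintype.card P) (β : ℝ)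
    (hβ : β = Real.sqrt ((c0 - w : ℝ) / (Fintype.card P - c0 - w : ℝ))) (K : Finset P) :
    (2 * Real.sqrt ((c0 - w : ℝ) * (Fintype.card P - c0 - w : ℝ)) * (w / (w + 1) : ℝ)) * vec c0 w β K ≤
      ∑ x, vec c0 w β (symmDiff K {x}) := by
  classical
  set N := Fintype.card P with hNdef
  have hA : (0 : ℝ) < (c0 - w : ℝ) := by
    have : (w : ℝ) < c0 := by exact_mod_cast hw
    linarith
  have hB : (0 : ℝ) < (N - c0 - w : ℝ) := by
    have : (c0 : ℝ) + w < N := by exact_mod_cast hN
    linarith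
  have hβpos : 0 < β := by rw [hβ]; exact Real.sqrt_pos.2 (div_pos hA hB)
  have hKN : (K.card : ℝ) ≤ N := by exact_mod_cast Finset.card_le_univ K
  have hrhs : 0 ≤ ∑ x, vec c0 w β (symmDiff K {x}) :=
    Finset.sum_nonneg (fun x _ => mul_nonneg (pow_nonneg hβpos.le _) (tent_nonneg _ _ _))
  by_cases ht : tent c0 w (K.card : ℤ) = 0
  · have : vec c0 w β K = 0 := by unfold vec; rw [ht, mul_zero]
    rw [this, mul_zero]
    exact hrhs
  have hrange := tent_pos_range c0 w _ ht
  rw [vec_sum]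
  have hj1 : c0 - w ≤ K.card := by
    rw [abs_le] at hrange; omega
  have hj2 : K.card ≤ c0 + w := by
    rw [abs_le] at hrange; omega
  have hj0 : 1 ≤ K.card := by omega
  have hjR1 : (c0 - w : ℝ) ≤ K.card := by
    have : (c0 : ℝ) ≤ K.card + w := by exact_mod_cast (by omega : c0 ≤ K.card + w)
    linarith
  have hjR2 : (N - c0 - w : ℝ) ≤ N - K.card := by
    have : (K.card : ℝ) ≤ c0 + w := by exact_mod_cast hj2
    linarith
  set e1 := tent c0 w ((K.card - 1 : ℕ) : ℤ) with he1
  set e2 := tent c0 w ((K.card + 1 : ℕ) : ℤ) with he2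
  have he1n : 0 ≤ e1 := tent_nonneg _ _ _
  have he2n : 0 ≤ e2 := tent_nonneg _ _ _
  have hstep := tent_step c0 w (K.card : ℤ) hrange
  have hc1 : ((K.card - 1 : ℕ) : ℤ) = (K.card : ℤ) - 1 := by omega
  have hc2 : ((K.card + 1 : ℕ) : ℤ) = (K.card : ℤ) + 1 := by omega
  rw [← hc1, ← hc2, ← he1, ← he2] at hstep
  have hpow1 : β ^ (K.card - 1) * β = β ^ K.card := by
    rw [← pow_succ]; congr 1; omega
  have hpow2 : β ^ (K.card + 1) = β ^ K.card * β := pow_succ _ _
  have hsq : β * β = (c0 - w : ℝ) / (N - c0 - w : ℝ) := by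
    rw [hβ]; exact Real.mul_self_sqrt (div_pos hA hB).le
  set g := Real.sqrt ((c0 - w : ℝ) * (N - c0 - w : ℝ)) with hg
  have hg1 : g = (N - c0 - w : ℝ) * β := by
    have : (N - c0 - w : ℝ) * β = Real.sqrt (((N - c0 - w : ℝ) * β) ^ 2) := by
      rw [Real.sqrt_sq (mul_pos hB hβpos).le]
    rw [this, hg]
    congr 1
    rw [mul_pow, sq β, hsq]
    field_simp
  have hg2 : g * β = (c0 - w : ℝ) := by
    rw [hg1, mul_assoc, hsq]
    field_simp
  have hgpos : 0 < g := by rw [hg1]; exact mul_pos hB hβpos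
  have hp1 : 0 < β ^ (K.card - 1) := pow_pos hβpos _
  have hpK : 0 < β ^ K.card := pow_pos hβpos _
  -- first term
  have t1 : g * β ^ K.card * e1 ≤ K.card * (β ^ (K.card - 1) * e1) := by
    rw [← hpow1]
    have : g * (β ^ (K.card - 1) * β) * e1 = (c0 - w : ℝ) * (β ^ (K.card - 1) * e1) := by
      rw [← hg2]; ring
    rw [this]
    exact mul_le_mul_of_nonneg_right hjR1 (mul_nonneg hp1.le he1n)
  have t2 : g * β ^ K.card * e2 ≤ (N - K.card) * (β ^ (K.card + 1) * e2) := by
    rw [hpow2]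
    have : g * β ^ K.card * e2 = (N - c0 - w : ℝ) * (β ^ K.card * β * e2) := by
      rw [hg1]; ring
    rw [this]
    exact mul_le_mul_of_nonneg_right hjR2 (by positivity)
  calc (2 * g * (w / (w + 1) : ℝ)) * vec c0 w β K
      = g * β ^ K.card * (2 * (w / (w + 1) : ℝ) * tent c0 w (K.card : ℤ)) := by
        unfold vec; ring
    _ ≤ g * β ^ K.card * (e1 + e2) := by
        exact mul_le_mul_of_nonneg_left hstep (mul_pos hgpos hpK).le
    _ = g * β ^ K.card * e1 + g * β ^ K.card * e2 := by ring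
    _ ≤ _ := add_le_add t1 t2

/-- Number of subsets of size at most `k`. -/
theorem card_ball_le (k : ℕ) (hk : 0 < k) (hkN : k ≤ Fintype.card P) :
    (((Finset.univ : Finset (Finset P)).filter (fun K => K.card ≤ k)).card : ℝ) ≤
      (Real.exp 1 * Fintype.card P / k) ^ k := by
  classical
  set N := Fintype.card P with hN
  have hkR : (0 : ℝ) < k := by exact_mod_cast hk
  have hNR : (0 : ℝ) < N := lt_of_lt_of_le hkR (by exact_mod_cast hkN)
  set t : ℝ := k / N with ht
  have htpos : 0 < t := div_pos hkR hNR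
  have ht1 : t ≤ 1 := by
    rw [ht, div_le_one hNR]; exact_mod_cast hkN
  have h1 : (∑ K : Finset P, t ^ K.card) = (t + 1) ^ N := by
    have := Finset.sum_pow_mul_eq_add_pow t (1 : ℝ) (Finset.univ : Finset P)
    simpa using this
  have h2 : (((Finset.univ : Finset (Finset P)).filter (fun K => K.card ≤ k)).card : ℝ) * t ^ k ≤
      ∑ K : Finset P, t ^ K.card := by
    rw [← nsmul_eq_mul, ← Finset.sum_const]
    refine le_trans (Finset.sum_le_sum (g := fun K : Finset P => t ^ K.card) ?_) ?_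
    · intro K hK
      exact pow_le_pow_of_le_one htpos.le ht1 (Finset.mem_filter.1 hK).2
    · exact Finset.sum_le_sum_of_subset_of_nonneg (Finset.filter_subset _ _)
        (fun K _ _ => pow_nonneg htpos.le _)
  have h3 : (t + 1) ^ N ≤ Real.exp 1 ^ k := by
    have h4 : t + 1 ≤ Real.exp t := Real.add_one_le_exp t
    calc (t + 1) ^ N ≤ (Real.exp t) ^ N := pow_le_pow_left₀ (by positivity) h4 N
      _ = Real.exp (N * t) := by rw [← Real.exp_nat_mul]
      _ = Real.exp (k * 1) := by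
          congr 1; rw [ht]; field_simp
      _ = Real.exp 1 ^ k := by rw [← Real.exp_nat_mul]
  have h5 : (((Finset.univ : Finset (Finset P)).filter (fun K => K.card ≤ k)).card : ℝ) * t ^ k ≤
      Real.exp 1 ^ k := le_trans h2 (h1 ▸ h3)
  have h6 : Real.exp 1 * N / k = Real.exp 1 / t := by
    rw [ht]; field_simp
  rw [h6, div_pow, le_div_iff₀ (pow_pos htpos k)]
  exact h5

/-- The bound for sign vectors. -/
theorem sign_bound {J : Type*} [Fintype J] [DecidableEq J]
    (u : J → P → ℝ) (hu : ∀ i x, u i x * u i x = 1) (L : ℝ)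
    (hL : ∀ i j, i ≠ j → ∑ x, u i x * u j x ≤ L) (c0 w k1 : ℕ) (hw : w < c0)
    (hk1 : c0 + w ≤ k1) (hN : k1 < Fintype.card P)
    (hlt : L + 1 ≤ 2 * Real.sqrt ((c0 - w : ℝ) * (Fintype.card P - c0 - w : ℝ)) * (w / (w + 1) : ℝ))
    (hLN : L ≤ Fintype.card P) :
    (Fintype.card J : ℝ) ≤ (Fintype.card P - L) *
      (Real.exp 1 * Fintype.card P / k1) ^ k1 := by
  classical
  have hN' : c0 + w < Fintype.card P := lt_of_le_of_lt hk1 hN
  set β := Real.sqrt ((c0 - w : ℝ) / (Fintype.card P - c0 - w : ℝ)) with hβ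
  set lam := 2 * Real.sqrt ((c0 - w : ℝ) * (Fintype.card P - c0 - w : ℝ)) * (w / (w + 1) : ℝ) with hlam
  have hA : (0 : ℝ) < (c0 - w : ℝ) := by
    have : (w : ℝ) < c0 := by exact_mod_cast hw
    linarith
  have hB : (0 : ℝ) < (Fintype.card P - c0 - w : ℝ) := by
    have : (c0 : ℝ) + w < Fintype.card P := by exact_mod_cast hN'
    linarith
  have hβpos : 0 < β := by rw [hβ]; exact Real.sqrt_pos.2 (div_pos hA hB)
  set D := (Finset.univ : Finset (Finset P)).filter (fun K => K.card ≤ k1) with hD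
  have hsupp : ∀ K : Finset P, K ∉ D → vec c0 w β K = 0 := by
    intro K hK
    have hK' : k1 < K.card := by
      by_contra h
      exact hK (Finset.mem_filter.2 ⟨Finset.mem_univ _, not_lt.1 h⟩)
    unfold vec
    rw [tent_zero, mul_zero]
    have : (w : ℤ) + 1 ≤ (K.card : ℤ) - c0 := by omega
    exact le_trans this (le_abs_self _)
  have hpos : 0 < ∑ K : Finset P, (vec c0 w β K) ^ 2 := by
    obtain ⟨K, _, hK⟩ := Finset.exists_subset_card_eq (s := (Finset.univ : Finset P)) (n := c0)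
      (by rw [Finset.card_univ]; omega)
    refine lt_of_lt_of_le ?_ (Finset.single_le_sum (f := fun K : Finset P => (vec c0 w β K) ^ 2)
      (fun K _ => sq_nonneg _) (Finset.mem_univ K))
    have h1 : tent c0 w (K.card : ℤ) = (w : ℝ) + 1 := by
      rw [hK, tent_eq]
      · simp
      · simp; omega
    have h2 : 0 < vec c0 w β K := by
      unfold vec
      rw [h1]
      positivity
    positivity
  have hmain := lp_bound u hu L hL (vec c0 w β) D
    (fun K => mul_nonneg (pow_nonneg hβpos.le _) (tent_nonneg _ _ _)) hsupp lam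
    (fun K => vec_eigen c0 w hw hN' β hβ K) (by linarith) hpos hLN
  have hball := card_ball_le (P := P) k1 (by omega) hN.le
  have h1 : (Fintype.card J : ℝ) ≤ (Fintype.card J : ℝ) * (lam - L) := by
    have : (0 : ℝ) ≤ Fintype.card J := Nat.cast_nonneg _
    nlinarith
  refine le_trans h1 (le_trans hmain ?_)
  refine mul_le_mul_of_nonneg_left ?_ (sub_nonneg.2 hLN)
  simpa [hD] using hball

end Pool.Agent.MP_7a59f9_co
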