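import Pool.Agent.Lib.MP_7a59f9_co.Final

/-!
Integer certificates.
-/

namespace Pool.Agent.MP_7a59f9_co

set_option linter.unusedSectionVars false

theorem exp_cert (y z E : ℕ) (hz : 0 < z)
    (h : (27182818286 * y) ^ z < 2 ^ E * (10000000000 * z) ^ z) :
    (Real.exp 1 * y / z) ^ z < 2 ^ E := by
  have hzR : (0 : ℝ) < z := by exact_mod_cast hz
  have h1 : Real.exp 1 * y / z ≤ (27182818286 * y : ℝ) / (10000000000 * z) := by
    have he : Real.exp 1 < 2.7182818286 := Real.exp_one_lt_d9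
    have hy : (0 : ℝ) ≤ y := Nat.cast_nonneg _
    have h2 : Real.exp 1 * y ≤ 2.7182818286 * y := mul_le_mul_of_nonneg_right he.le hy
    calc Real.exp 1 * y / z ≤ (2.7182818286 * y) / z := div_le_div_of_nonneg_right h2 hzR.le
      _ = (27182818286 * y : ℝ) / (10000000000 * z) := by
          field_simp; norm_num; ring
  have h3 : (Real.exp 1 * y / z) ^ z ≤ ((27182818286 * y : ℝ) / (10000000000 * z)) ^ z :=
    pow_le_pow_left₀ (by positivity) h1 z
  refine lt_of_le_of_lt h3 ?_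
  rw [div_pow, div_lt_iff₀ (by positivity)]
  exact_mod_cast h

theorem ev_two' (h q Q y : ℕ) (hh : 1 ≤ h) (hq : 1 ≤ q) (hqy : q + q ≤ y) (hQ : 1 ≤ Q)
    (hcert : 2 ^ Q * (y - q).descFactorial q < y.descFactorial q) : EvGood (h * q) (h * Q) 2 (h * y) := by
  refine ev_two h q Q y hh hq hqy hQ ?_
  rw [Nat.descFactorial_eq_factorial_mul_choose, Nat.descFactorial_eq_factorial_mul_choose] at hcert
  have h1 : 0 < q.factorial := Nat.factorial_pos _
  refine Nat.lt_of_mul_lt_mul_left (a := q.factorial) ?_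
  calc q.factorial * (2 ^ Q * (y - q).choose q) = 2 ^ Q * (q.factorial * (y - q).choose q) := by ring
    _ < _ := hcert

theorem ev_pair' (q q' t yt y z : ℕ) (hev : EvGood q q' t yt) (hq' : 1 ≤ q') (hz : 0 < z)
    (hzy : z + 1 < y) (h4 : 4 * yt ≤ y)
    (hL : (y - 4 * yt) ^ 2 < 4 * (z * (y - z)))
    (hE : (27182818286 * y) ^ (z + 1) < 2 ^ q' * (10000000000 * (z + 1)) ^ (z + 1)) :
    EvGood q q' (t + 2) y := by
  refine ev_pair q q' t yt y z (z + 1) hev hq' hz (Nat.lt_succ_self z) hzy h4 ?_ ?_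
  · have h1 : (((y - 4 * yt) ^ 2 : ℕ) : ℝ) < ((4 * (z * (y - z)) : ℕ) : ℝ) := by exact_mod_cast hL
    push_cast [Nat.cast_sub h4, Nat.cast_sub (by omega : z ≤ y)] at h1
    exact h1
  · exact_mod_cast exp_cert y (z + 1) q' (Nat.succ_pos z) hE

theorem bound_of_ev' (q q' T y r0 cn cd : ℕ) (c : ℝ) (hcc : c = cn / cd) (hq : 1 ≤ q) (hqy : q ≤ y)
    (hT : T < r0)
    (hq' : 1 ≤ q') (hev : EvGood q q' T y) (hqq : q ≤ q')
    (hcert : (27182818286 * y) ^ q < 2 ^ ((q' - q) * (r0 - T)) * (10000000000 * q) ^ q)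
    (hcd : 0 < cd) (hc : cd * (q' * 2 ^ T) < cn * y) : RateBound r0 c := by
  rw [hcc]
  refine bound_of_ev q q' T y r0 (cn / cd : ℝ) hq hqy hT hq' hev hqq
    (exp_cert y q _ hq hcert) ?_
  have h1 : ((cd * (q' * 2 ^ T) : ℕ) : ℝ) < ((cn * y : ℕ) : ℝ) := by exact_mod_cast hc
  push_cast at h1
  have hcdR : (0 : ℝ) < cd := by exact_mod_cast hcd
  rw [div_mul_eq_mul_div, lt_div_iff₀ hcdR]
  linarith

end Pool.Agent.MP_7a59f9_co
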