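import Pool.Agent.Lib.MP_7a59f9_co.Ball

/-!
The combinatorial core: every small atom contains a small set that few members of the family fail to split.
-/

namespace Pool.Agent.MP_7a59f9_co

open Finset

set_option linter.unusedSectionVars false

variable {ι X : Type*} [Fintype ι] [DecidableEq ι] [Fintype X] [DecidableEq X]

/-- `r`-wise qualitative independence of a family of subsets given by indicator functions. -/
def QIb (r : ℕ) (a : ι → X → Bool) : Prop :=
  ∀ I : Finset ι, I.card = r → ∀ e : ι → Bool, ∃ x, ∀ i ∈ I, a i x = e i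

/-- Atoms. -/
def atom (a : ι → X → Bool) (I : Finset ι) (e : ι → Bool) : Finset X :=
  Finset.univ.filter (fun x => ∀ i ∈ I, a i x = e i)

theorem mem_atom (a : ι → X → Bool) (I : Finset ι) (e : ι → Bool) (x : X) :
    x ∈ atom a I e ↔ ∀ i ∈ I, a i x = e i := by
  simp [atom]

/-- Indices of the members that do not split `S`. -/
def mono (a : ι → X → Bool) (S : Finset X) : Finset ι :=
  Finset.univ.filter (fun i => ∃ b, ∀ x ∈ S, a i x = b)

theorem mem_mono (a : ι → X → Bool) (S : Finset X) (i : ι) :
    i ∈ mono a S ↔ ∃ b, ∀ x ∈ S, a i x = b := by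
  simp [mono]

/-- `P` contains a set of size at most `s` that all but at most `r - 1` members split. -/
def Small (a : ι → X → Bool) (s r : ℕ) (P : Finset X) : Prop :=
  ∃ S ⊆ P, S.Nonempty ∧ S.card ≤ s ∧ (mono a S).card + 1 ≤ r

theorem Small.mono {a : ι → X → Bool} {s r : ℕ} {P Q : Finset X} (h : Small a s r P) (hPQ : P ⊆ Q) :
    Small a s r Q := by
  obtain ⟨S, h1, h2⟩ := h
  exact ⟨S, h1.trans hPQ, h2⟩

/-- Atoms of level `r - t` and size at most `v` are good. -/
def Good (a : ι → X → Bool) (s r t v : ℕ) : Prop :=
  ∀ (I : Finset ι) (e : ι → Bool), I.card + t = r → (atom a I e).card ≤ v → Small a s r (atom a I e)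

theorem QIb.exists_of_le {r : ℕ} {a : ι → X → Bool} (h : QIb r a) (hr : r ≤ Fintype.card ι)
    (I : Finset ι) (hI : I.card ≤ r) (e : ι → Bool) : ∃ x, ∀ i ∈ I, a i x = e i := by
  obtain ⟨I', h1, h2⟩ := Finset.exists_superset_card_eq hI hr
  obtain ⟨x, hx⟩ := h I' h2 e
  exact ⟨x, fun i hi => hx i (h1 hi)⟩

/-- A low level atom is split by every further member. -/
theorem mono_atom_subset {r : ℕ} {a : ι → X → Bool} (h : QIb r a) (hr : r ≤ Fintype.card ι)
    (I : Finset ι) (hI : I.card + 1 ≤ r) (e : ι → Bool) : mono a (atom a I e) ⊆ I := by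
  intro i hi
  by_contra hiI
  obtain ⟨b, hb⟩ := (mem_mono a _ i).1 hi
  obtain ⟨x, hx⟩ := h.exists_of_le hr (insert i I) (by rw [Finset.card_insert_of_notMem hiI]; exact hI)
    (Function.update e i (!b))
  have h1 : x ∈ atom a I e := by
    rw [mem_atom]
    intro j hj
    have hji : j ≠ i := fun h => hiI (h ▸ hj)
    have := hx j (Finset.mem_insert_of_mem hj)
    rwa [Function.update_of_ne hji] at this
  have h2 := hb x h1
  have h3 := hx i (Finset.mem_insert_self i I)
  rw [Function.update_self] at h3
  rw [h2] at h3
  cases b <;> simp at h3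

theorem atom_nonempty {r : ℕ} {a : ι → X → Bool} (h : QIb r a) (hr : r ≤ Fintype.card ι)
    (I : Finset ι) (hI : I.card ≤ r) (e : ι → Bool) : (atom a I e).Nonempty := by
  obtain ⟨x, hx⟩ := h.exists_of_le hr I hI e
  exact ⟨x, (mem_atom a I e x).2 hx⟩

/-- Small atoms of any level below `r` are good. -/
theorem small_of_card_le {r s : ℕ} {a : ι → X → Bool} (h : QIb r a) (hr : r ≤ Fintype.card ι)
    (I : Finset ι) (hI : I.card + 1 ≤ r) (e : ι → Bool) (hs : (atom a I e).card ≤ s) :
    Small a s r (atom a I e) :=
  ⟨atom a I e, subset_rfl, atom_nonempty h hr I (by omega) e, hs,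
    le_trans (Nat.add_le_add_right (Finset.card_le_card (mono_atom_subset h hr I hI e)) 1) hI⟩

theorem good_one {r s : ℕ} {a : ι → X → Bool} (h : QIb r a) (hr : r ≤ Fintype.card ι) :
    Good a s r 1 s := by
  intro I e hI hs
  exact small_of_card_le h hr I (by omega) e hs

theorem atom_insert (a : ι → X → Bool) (I : Finset ι) (e : ι → Bool) (i : ι) (hi : i ∉ I) (b : Bool) :
    atom a (insert i I) (Function.update e i b) = (atom a I e).filter (fun x => a i x = b) := by
  ext x
  rw [mem_atom, Finset.mem_filter, mem_atom]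
  constructor
  · intro hx
    refine ⟨fun j hj => ?_, ?_⟩
    · have hji : j ≠ i := fun h => hi (h ▸ hj)
      have := hx j (Finset.mem_insert_of_mem hj)
      rwa [Function.update_of_ne hji] at this
    · have := hx i (Finset.mem_insert_self i I)
      rwa [Function.update_self] at this
  · rintro ⟨h1, h2⟩ j hj
    rcases Finset.mem_insert.1 hj with rfl | hj'
    · rw [Function.update_self]; exact h2
    · have hji : j ≠ i := fun h => hi (h ▸ hj')
      rw [Function.update_of_ne hji]; exact h1 j hj'

/-- The covering step. -/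
theorem good_two {r s v : ℕ} {a : ι → X → Bool} (h : QIb r a) (hr : r ≤ Fintype.card ι) (hs : 1 ≤ s)
    (hcov : ∀ p, s < p → p ≤ v → 2 * Fintype.card ι * (p - s - 1).choose s < p.choose s) :
    Good a s r 2 v := by
  classical
  intro I e hI hcard
  by_contra hsmall
  set Q := atom a I e with hQ
  have hsQ : s < Q.card := by
    by_contra hle
    exact hsmall (small_of_card_le h hr I (by omega) e (not_lt.1 hle))
  have hbig : ∀ i ∉ I, ∀ b : Bool, s < (Q.filter (fun x => a i x = b)).card := by
    intro i hi b
    by_contra hle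
    have hg := good_one (s := s) h hr (insert i I) (Function.update e i b)
      (by rw [Finset.card_insert_of_notMem hi]; omega)
      (by rw [atom_insert a I e i hi b]; exact not_lt.1 hle)
    rw [atom_insert a I e i hi b] at hg
    exact hsmall (hg.mono (Finset.filter_subset _ _))
  have hle : ∀ i ∉ I, ∀ b : Bool, (Q.filter (fun x => a i x = b)).card ≤ Q.card - s - 1 := by
    intro i hi b
    have h1 := hbig i hi (!b)
    have h2 : (Q.filter (fun x => a i x = b)).card + (Q.filter (fun x => a i x = !b)).card = Q.card := by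
      rw [← Finset.card_filter_add_card_filter_not (s := Q) (fun x => a i x = b)]
      congr 2
      apply Finset.filter_congr
      intro x _
      cases a i x <;> cases b <;> simp
    omega
  have hsub : Q.powersetCard s ⊆ (Finset.univ : Finset (ι × Bool)).biUnion
      (fun ib => if ib.1 ∈ I then ∅ else (Q.filter (fun x => a ib.1 x = ib.2)).powersetCard s) := by
    intro S hS
    rw [Finset.mem_powersetCard] at hS
    by_contra hno
    apply hsmall
    refine ⟨S, hS.1, ?_, hS.2.le, ?_⟩
    · rw [← Finset.card_pos, hS.2]; omega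
    · have : mono a S ⊆ I := by
        intro i hi
        by_contra hiI
        obtain ⟨b, hb⟩ := (mem_mono a S i).1 hi
        apply hno
        rw [Finset.mem_biUnion]
        refine ⟨(i, b), Finset.mem_univ _, ?_⟩
        simp only [hiI, if_false]
        rw [Finset.mem_powersetCard]
        exact ⟨fun x hx => Finset.mem_filter.2 ⟨hS.1 hx, hb x hx⟩, hS.2⟩
      have := Finset.card_le_card this
      omega
  have hcount := Finset.card_le_card hsub
  rw [Finset.card_powersetCard] at hcount
  have hcount2 : ((Finset.univ : Finset (ι × Bool)).biUnion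
      (fun ib => if ib.1 ∈ I then ∅ else (Q.filter (fun x => a ib.1 x = ib.2)).powersetCard s)).card ≤
      2 * Fintype.card ι * (Q.card - s - 1).choose s := by
    refine le_trans Finset.card_biUnion_le ?_
    have : ∀ ib ∈ (Finset.univ : Finset (ι × Bool)),
        (if ib.1 ∈ I then (∅ : Finset (Finset X)) else
          (Q.filter (fun x => a ib.1 x = ib.2)).powersetCard s).card ≤ (Q.card - s - 1).choose s := by
      rintro ⟨i, b⟩ _
      by_cases hi : i ∈ I
      · simp [hi]
      · simp only [hi, if_false, Finset.card_powersetCard]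
        exact Nat.choose_le_choose s (hle i hi b)
    refine le_trans (Finset.sum_le_card_nsmul _ _ _ this) ?_
    rw [Finset.card_univ, Fintype.card_prod, Fintype.card_bool, smul_eq_mul]
    exact le_of_eq (by ring)
  have := hcov Q.card hsQ hcard
  omega

/-- Sign of a Boolean. -/
def sg (b : Bool) : ℝ := if b then 1 else -1

theorem sg_mul_self (b : Bool) : sg b * sg b = 1 := by
  cases b <;> simp [sg]

theorem sg_mul (b c : Bool) : sg b * sg c = 1 - 2 * (if b = c then 0 else 1) := by
  cases b <;> cases c <;> simp [sg] <;> norm_num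

/-- The pair step. -/
theorem good_pair {r s t v N : ℕ} {a : ι → X → Bool}
    (hgood : Good a s r t v) (c0 w k1 : ℕ) (hw : w < c0) (hk1 : c0 + w ≤ k1) (hN : k1 < N)
    (hlt : (N : ℝ) - 4 * (v + 1) + 1 ≤
      2 * Real.sqrt ((c0 - w : ℝ) * (N - c0 - w : ℝ)) * (w / (w + 1) : ℝ))
    (hcard : (4 * (v + 1) : ℝ) * (Real.exp 1 * N / k1) ^ k1 + r < Fintype.card ι) :
    Good a s r (t + 2) N := by
  classical
  intro I e hI hcardQ
  by_contra hsmall
  set Q := atom a I e with hQ
  -- all four atoms are large
  have hbig : ∀ i ∉ I, ∀ j ∉ I, i ≠ j → ∀ b c : Bool,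
      v < (Q.filter (fun x => a i x = b ∧ a j x = c)).card := by
    intro i hi j hj hij b c
    by_contra hle
    have hj' : j ∉ insert i I := by
      rw [Finset.mem_insert]; push Not; exact ⟨hij.symm, hj⟩
    have heq : atom a (insert j (insert i I)) (Function.update (Function.update e i b) j c) =
        Q.filter (fun x => a i x = b ∧ a j x = c) := by
      rw [atom_insert a (insert i I) _ j hj' c, atom_insert a I e i hi b, Finset.filter_filter]
    have hg := hgood (insert j (insert i I)) (Function.update (Function.update e i b) j c)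
      (by rw [Finset.card_insert_of_notMem hj', Finset.card_insert_of_notMem hi]; omega)
      (by rw [heq]; exact not_lt.1 hle)
    rw [heq] at hg
    exact hsmall (hg.mono (Finset.filter_subset _ _))
  -- correlations
  have hcorr : ∀ i ∉ I, ∀ j ∉ I, i ≠ j →
      ∑ x ∈ Q, sg (a i x) * sg (a j x) ≤ (Q.card : ℝ) - 4 * (v + 1) := by
    intro i hi j hj hij
    have h1 : ∑ x ∈ Q, sg (a i x) * sg (a j x) =
        (Q.card : ℝ) - 2 * ((Q.filter (fun x => a i x ≠ a j x)).card : ℝ) := by
      simp_rw [sg_mul]
      rw [Finset.sum_sub_distrib, ← Finset.mul_sum]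
      have : ∑ x ∈ Q, (if a i x = a j x then (0 : ℝ) else 1) =
          ((Q.filter (fun x => a i x ≠ a j x)).card : ℝ) := by
        rw [Finset.card_filter]
        push_cast
        refine Finset.sum_congr rfl (fun x _ => ?_)
        by_cases hx : a i x = a j x <;> simp [hx]
      rw [this]
      simp
    have h2 : (Q.filter (fun x => a i x = true ∧ a j x = false)).card +
        (Q.filter (fun x => a i x = false ∧ a j x = true)).card ≤
        (Q.filter (fun x => a i x ≠ a j x)).card := by
      rw [← Finset.card_union_of_disjoint]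
      · apply Finset.card_le_card
        intro x hx
        rw [Finset.mem_union, Finset.mem_filter, Finset.mem_filter] at hx
        rw [Finset.mem_filter]
        rcases hx with ⟨h3, h4, h5⟩ | ⟨h3, h4, h5⟩
        · exact ⟨h3, by rw [h4, h5]; simp⟩
        · exact ⟨h3, by rw [h4, h5]; simp⟩
      · rw [Finset.disjoint_left]
        intro x hx hx'
        rw [Finset.mem_filter] at hx hx'
        rw [hx.2.1] at hx'
        simp at hx'
    have h3 := hbig i hi j hj hij true false
    have h4 := hbig i hi j hj hij false true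
    have h5 : 2 * (v + 1) ≤ (Q.filter (fun x => a i x ≠ a j x)).card := by omega
    have h6 : (2 * (v + 1) : ℝ) ≤ ((Q.filter (fun x => a i x ≠ a j x)).card : ℝ) := by exact_mod_cast h5
    rw [h1]; linarith
  -- apply the LP bound with padding
  set J := {i : ι // i ∉ I} with hJ
  set P := (Q : Set X) ⊕ Fin (N - Q.card) with hP
  let u : J → ((Q : Set X) ⊕ Fin (N - Q.card)) → ℝ := fun i x =>
    Sum.elim (fun y : (Q : Set X) => sg (a i.1 y.1)) (fun _ => 1) x
  have hcardP : Fintype.card ((Q : Set X) ⊕ Fin (N - Q.card)) = N := by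
    rw [Fintype.card_sum, Fintype.card_fin]
    simp only [Finset.coe_sort_coe, Fintype.card_coe]
    omega
  have hu : ∀ i x, u i x * u i x = 1 := by
    intro i x
    rcases x with y | y
    · exact sg_mul_self _
    · simp [u]
  have hL : ∀ i j : J, i ≠ j → ∑ x, u i x * u j x ≤ (N : ℝ) - 4 * (v + 1) := by
    intro i j hij
    rw [Fintype.sum_sum_type]
    have h1 : ∑ y : (Q : Set X), u i (Sum.inl y) * u j (Sum.inl y) =
        ∑ x ∈ Q, sg (a i.1 x) * sg (a j.1 x) := by
      simp only [u, Sum.elim_inl]
      exact Finset.sum_coe_sort Q (fun x => sg (a i.1 x) * sg (a j.1 x))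
    have h2 : ∑ y : Fin (N - Q.card), u i (Sum.inr y) * u j (Sum.inr y) = ((N - Q.card : ℕ) : ℝ) := by
      simp [u]
    rw [h1, h2, Nat.cast_sub hcardQ]
    have := hcorr i.1 i.2 j.1 j.2 (fun h => hij (Subtype.ext h))
    linarith
  have hmain := sign_bound u hu ((N : ℝ) - 4 * (v + 1)) hL c0 w k1 hw hk1 (by rw [hcardP]; exact hN)
    (by rw [hcardP]; exact hlt) (by rw [hcardP]; have : (0 : ℝ) ≤ v := Nat.cast_nonneg _; linarith)
  rw [hcardP] at hmain
  have hcardJ : (Fintype.card ι : ℝ) ≤ Fintype.card J + r := by
    have h1 : Fintype.card J = Fintype.card ι - I.card := by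
      have h0 := Fintype.card_subtype_compl (fun i => i ∈ I)
      rw [Fintype.card_coe] at h0
      rw [← h0]
    have h2 : Fintype.card ι ≤ Fintype.card J + r := by omega
    exact_mod_cast h2
  have h3 : (N : ℝ) - (N - 4 * (v + 1)) = 4 * (v + 1) := by ring
  rw [h3] at hmain
  linarith

/-- Counting. -/
theorem count {r s T v : ℕ} {a : ι → X → Bool} (hT : T ≤ r)
    (hgood : Good a s r T v) (hX : Fintype.card X ≤ 2 ^ (r - T) * v) :
    (Fintype.card ι).choose (r - T) ≤ 2 ^ r *
      ((Finset.univ : Finset (Finset X)).filter (fun S => S.card ≤ s)).card := by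
  classical
  -- a small atom for every index set
  have hsm : ∀ I : Finset ι, I.card = r - T → ∃ S : Finset X, S.card ≤ s ∧ I ⊆ mono a S ∧
      (mono a S).card + 1 ≤ r := by
    intro I hI
    have hex : ∃ J ∈ I.powerset,
        (Finset.univ.filter (fun x : X => I.filter (fun i => a i x = true) = J)).card ≤ v := by
      by_contra hno
      push Not at hno
      have h1 : (Finset.univ : Finset X).card = ∑ J ∈ I.powerset,
          (Finset.univ.filter (fun x : X => I.filter (fun i => a i x = true) = J)).card := by
        apply Finset.card_eq_sum_card_fiberwise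
        intro x _
        rw [Finset.mem_coe, Finset.mem_powerset]
        exact Finset.filter_subset _ _
      have h2 : ∑ J ∈ I.powerset, (v + 1) ≤ ∑ J ∈ I.powerset,
          (Finset.univ.filter (fun x : X => I.filter (fun i => a i x = true) = J)).card :=
        Finset.sum_le_sum (fun J hJ => hno J hJ)
      rw [Finset.sum_const, Finset.card_powerset, hI, smul_eq_mul] at h2
      rw [← h1, Finset.card_univ] at h2
      have h3 : 0 < 2 ^ (r - T) := by positivity
      nlinarith
    obtain ⟨J, hJ, hJc⟩ := hex
    set e : ι → Bool := fun i => decide (i ∈ J) with he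
    have hat : atom a I e ⊆ Finset.univ.filter (fun x : X => I.filter (fun i => a i x = true) = J) := by
      intro x hx
      rw [mem_atom] at hx
      rw [Finset.mem_filter]
      refine ⟨Finset.mem_univ _, ?_⟩
      ext i
      rw [Finset.mem_filter]
      constructor
      · rintro ⟨h1, h2⟩
        have := hx i h1
        rw [h2, he] at this
        simpa using this.symm
      · intro hi
        have hiI := Finset.mem_powerset.1 hJ hi
        refine ⟨hiI, ?_⟩
        rw [hx i hiI, he]
        simpa using hi
    obtain ⟨S, h1, h2, h3, h4⟩ := hgood I e (by omega) (le_trans (Finset.card_le_card hat) hJc)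
    refine ⟨S, h3, ?_, h4⟩
    intro i hi
    rw [mem_mono]
    exact ⟨e i, fun x hx => (mem_atom a I e x).1 (h1 hx) i hi⟩
  choose! F hF1 hF2 hF3 using hsm
  have h1 : ((Finset.univ : Finset ι).powersetCard (r - T)).card ≤
      2 ^ r * (((Finset.univ : Finset ι).powersetCard (r - T)).image F).card := by
    apply Finset.card_le_mul_card_image
    intro S hS
    obtain ⟨I0, hI0, hI0S⟩ := Finset.mem_image.1 hS
    rw [Finset.mem_powersetCard] at hI0
    have hmonoS : (mono a S).card + 1 ≤ r := by rw [← hI0S]; exact hF3 I0 hI0.2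
    calc _ ≤ ((mono a S).powerset).card := by
          apply Finset.card_le_card
          intro I hI
          rw [Finset.mem_filter, Finset.mem_powersetCard] at hI
          rw [Finset.mem_powerset, ← hI.2]
          exact hF2 I hI.1.2
      _ = 2 ^ (mono a S).card := Finset.card_powerset _
      _ ≤ 2 ^ r := Nat.pow_le_pow_right (by norm_num) (by omega)
  rw [Finset.card_powersetCard, Finset.card_univ] at h1
  refine le_trans h1 (Nat.mul_le_mul_left _ (Finset.card_le_card ?_))
  intro S hS
  obtain ⟨I0, hI0, hI0S⟩ := Finset.mem_image.1 hS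
  rw [Finset.mem_powersetCard] at hI0
  rw [Finset.mem_filter]
  exact ⟨Finset.mem_univ _, by rw [← hI0S]; exact hF1 I0 hI0.2⟩

end Pool.Agent.MP_7a59f9_co
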