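import Mathlib

/-!
Definitions for the hand-in on MP_7a59f9_co.
-/

namespace Pool.Agent.MP_7a59f9_co

/-- The family `A 0, ..., A (m - 1)` of subsets of an `n`-element set is `r`-wise qualitatively independent:
for every set `I` of `r` indices and every choice of signs on `I` (`J` is the set of indices in `I` with
sign 1, the members with index in `I` outside `J` are complemented) the corresponding atom is nonempty. -/
def QI (r : ℕ) {m n : ℕ} (A : Fin m → Finset (Fin n)) : Prop :=
  ∀ I : Finset (Fin m), I.card = r → ∀ J ⊆ I, ∃ x : Fin n, ∀ i ∈ I, (x ∈ A i ↔ i ∈ J)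

/-- The constant in the exponent, a nonincreasing step function of `r`. -/
noncomputable def rate (r : ℕ) : ℝ :=
  if r < 20 then 1.94 else
  if r < 30 then 1.77 else
  if r < 50 then 1.58 else
  if r < 100 then 1.39 else
  if r < 200 then 1.25 else
  if r < 1000 then 1.18 else
  if r < 10000 then 1.11 else 1.08

/-- `RateBound r₀ c`: for every `r ≥ r₀` and all sufficiently large `n`, an `r`-wise qualitatively independent
family of subsets of an `n`-element set has at most `2 ^ (c n / 2 ^ r)` members. -/
def RateBound (r₀ : ℕ) (c : ℝ) : Prop :=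
  ∀ r ≥ r₀, ∃ n₀ : ℕ, ∀ n ≥ n₀, ∀ (m : ℕ) (A : Fin m → Finset (Fin n)), QI r A →
    (m : ℝ) ≤ (2 : ℝ) ^ (c * n / 2 ^ r)

end Pool.Agent.MP_7a59f9_co
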