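import Pool.Agent.Lib.MP_7a59f9_co.Defs

/-!
The constant in the exponent of the upper bound, for all `r ≥ 4`.
-/

namespace Pool.Agent.MP_7a59f9_co

/-- The constant in the exponent: `2 + (0.89 - 2.88 / 2 ^ r) / (r - 2)` for `r < 15`, then a nonincreasing
step function of `r`. -/
noncomputable def rateAll (r : ℕ) : ℝ :=
  if r < 15 then 2 + (0.89 - 2.88 / 2 ^ r) / ((r : ℝ) - 2) else
  if r < 16 then 1.99 else
  if r < 20 then 1.94 else
  if r < 30 then 1.77 else
  if r < 50 then 1.58 else
  if r < 100 then 1.39 else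
  if r < 200 then 1.25 else
  if r < 1000 then 1.18 else
  if r < 10000 then 1.11 else 1.08

end Pool.Agent.MP_7a59f9_co
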