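import Pool.Agent.Lib.MP_7a59f9_co.Core

/-!
The count of own subsets at level `r - 2`.
-/

namespace Pool.Agent.MP_7a59f9_co

open Finset

section Half

variable {X : Type*} [DecidableEq X]

theorem nb_card (P : Finset X) (s : ℕ) (hs : P.card < 2 * s) (S : Finset X)
    (hS : S ∈ P.powersetCard s) :
    ((P.powersetCard s).filter (fun S' => S ∪ S' = P)).card = s.choose (2 * s - P.card) := by
  rw [mem_powersetCard] at hS
  have hd : (P \ S).card = P.card - s := by rw [card_sdiff_of_subset hS.1, hS.2]
  have hsP : s ≤ P.card := by rw [← hS.2]; exact card_le_card hS.1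
  have himg : (P.powersetCard s).filter (fun S' => S ∪ S' = P) =
      (S.powersetCard (2 * s - P.card)).image (fun T => T ∪ (P \ S)) := by
    ext S'
    rw [mem_filter, mem_powersetCard, mem_image]
    constructor
    · rintro ⟨⟨h1, h2⟩, h3⟩
      have h4 : P \ S ⊆ S' := by
        intro x hx
        rw [mem_sdiff] at hx
        have h5 : x ∈ S ∪ S' := h3 ▸ hx.1
        rcases mem_union.1 h5 with h6 | h6
        · exact absurd h6 hx.2
        · exact h6
      have h5 : S' ∩ S ∪ P \ S = S' := by
        ext x
        rw [mem_union, mem_inter, mem_sdiff]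
        constructor
        · rintro (h | h)
          · exact h.1
          · exact h4 (mem_sdiff.2 h)
        · intro h
          by_cases hx : x ∈ S
          · exact Or.inl ⟨h, hx⟩
          · exact Or.inr ⟨h1 h, hx⟩
      refine ⟨S' ∩ S, ?_, h5⟩
      rw [mem_powersetCard]
      refine ⟨inter_subset_right, ?_⟩
      have h6 : Disjoint (S' ∩ S) (P \ S) := by
        rw [disjoint_left]
        intro x hx hx'
        exact (mem_sdiff.1 hx').2 (mem_inter.1 hx).2
      have h7 := card_union_of_disjoint h6
      rw [h5, h2, hd] at h7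
      omega
    · rintro ⟨T, hT, rfl⟩
      rw [mem_powersetCard] at hT
      have h6 : Disjoint T (P \ S) := by
        rw [disjoint_left]
        intro x hx hx'
        exact (mem_sdiff.1 hx').2 (hT.1 hx)
      refine ⟨⟨union_subset (hT.1.trans hS.1) sdiff_subset, ?_⟩, ?_⟩
      · rw [card_union_of_disjoint h6, hT.2, hd]
        omega
      · ext x
        rw [mem_union, mem_union, mem_sdiff]
        constructor
        · rintro (h | h | h)
          · exact hS.1 h
          · exact hS.1 (hT.1 h)
          · exact h.1
        · intro h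
          by_cases hx : x ∈ S
          · exact Or.inl hx
          · exact Or.inr (Or.inr ⟨h, hx⟩)
  rw [himg, card_image_of_injOn, card_powersetCard, hS.2]
  intro T hT T' hT' hTT
  rw [mem_coe, mem_powersetCard] at hT hT'
  have key : ∀ U : Finset X, U ⊆ S → (U ∪ P \ S) ∩ S = U := by
    intro U hU
    ext x
    rw [mem_inter, mem_union, mem_sdiff]
    constructor
    · rintro ⟨h | h, h'⟩
      · exact h
      · exact absurd h' h.2
    · intro h
      exact ⟨Or.inl h, hU h⟩
  have h1 := congrArg (fun U => U ∩ S) hTT
  simp only [key T hT.1, key T' hT'.1] at h1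
  exact h1

theorem own_half (P : Finset X) (s : ℕ) (hs : P.card < 2 * s)
    (N : Finset X → Prop) [DecidablePred N]
    (hN : ∀ S ∈ P.powersetCard s, ∀ S' ∈ P.powersetCard s, N S → N S' → S ∪ S' ≠ P) :
    P.card.choose s ≤ 2 * ((P.powersetCard s).filter (fun S => ¬ N S)).card := by
  by_cases hsP : s ≤ P.card
  swap
  · rw [Nat.choose_eq_zero_of_lt (not_le.1 hsP)]
    exact Nat.zero_le _
  set A := (P.powersetCard s).filter (fun S => N S) with hA
  set B := (P.powersetCard s).filter (fun S => ¬ N S) with hB
  have hd : 0 < s.choose (2 * s - P.card) := Nat.choose_pos (by omega)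
  have h1 : A.card * s.choose (2 * s - P.card) ≤ B.card * s.choose (2 * s - P.card) := by
    apply card_mul_le_card_mul (fun S S' : Finset X => S ∪ S' = P)
    · intro S hS
      rw [hA, mem_filter] at hS
      rw [← nb_card P s hs S hS.1]
      apply card_le_card
      intro S' hS'
      rw [mem_filter] at hS'
      rw [mem_bipartiteAbove, hB, mem_filter]
      refine ⟨⟨hS'.1, fun h => hN S hS.1 S' hS'.1 hS.2 h hS'.2⟩, hS'.2⟩
    · intro S' hS'
      rw [hB, mem_filter] at hS'
      rw [← nb_card P s hs S' hS'.1]
      apply card_le_card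
      intro S hS
      rw [mem_bipartiteBelow, hA, mem_filter] at hS
      rw [mem_filter]
      exact ⟨hS.1.1, by rw [union_comm]; exact hS.2⟩
  have h2 : A.card ≤ B.card := Nat.le_of_mul_le_mul_right h1 hd
  have h3 : A.card + B.card = P.card.choose s := by
    rw [hA, hB, card_filter_add_card_filter_not, card_powersetCard]
  omega

end Half

section

variable {ι X : Type*} [Fintype ι] [DecidableEq ι] [Fintype X] [DecidableEq X]

theorem exists_small_atom (a : ι → X → Bool) (I : Finset ι) :
    ∃ e : ι → Bool, (atom a I e).card ≤ Fintype.card X / 2 ^ I.card := by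
  classical
  have hex : ∃ J ∈ I.powerset,
      (Finset.univ.filter (fun x : X => I.filter (fun i => a i x = true) = J)).card ≤
        Fintype.card X / 2 ^ I.card := by
    by_contra hno
    push Not at hno
    have h1 : (Finset.univ : Finset X).card = ∑ J ∈ I.powerset,
        (Finset.univ.filter (fun x : X => I.filter (fun i => a i x = true) = J)).card := by
      apply Finset.card_eq_sum_card_fiberwise
      intro x _
      rw [Finset.mem_coe, Finset.mem_powerset]
      exact Finset.filter_subset _ _
    have h2 : ∑ J ∈ I.powerset, (Fintype.card X / 2 ^ I.card + 1) ≤ ∑ J ∈ I.powerset,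
        (Finset.univ.filter (fun x : X => I.filter (fun i => a i x = true) = J)).card :=
      Finset.sum_le_sum (fun J hJ => hno J hJ)
    rw [Finset.sum_const, Finset.card_powerset, smul_eq_mul, ← h1, Finset.card_univ] at h2
    have h3 := Nat.lt_mul_div_succ (Fintype.card X) (show 0 < 2 ^ I.card by positivity)
    omega
  obtain ⟨J, hJ, hJc⟩ := hex
  refine ⟨fun i => decide (i ∈ J), le_trans (Finset.card_le_card ?_) hJc⟩
  intro x hx
  rw [mem_atom] at hx
  rw [Finset.mem_filter]
  refine ⟨Finset.mem_univ _, ?_⟩
  ext i
  rw [Finset.mem_filter]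
  constructor
  · rintro ⟨h1, h2⟩
    have := hx i h1
    rw [h2] at this
    simpa using this.symm
  · intro hi
    have hiI := Finset.mem_powerset.1 hJ hi
    refine ⟨hiI, ?_⟩
    rw [hx i hiI]
    simpa using hi

/-- Own subsets of an atom of level `r - 2`. -/
theorem atom_own {r : ℕ} {a : ι → X → Bool} (h : QIb r a) (hr : r ≤ Fintype.card ι)
    (I : Finset ι) (hI : I.card + 2 = r) (e : ι → Bool) (s : ℕ) (hs : (atom a I e).card < 2 * s) :
    (atom a I e).card.choose s ≤
      2 * (((atom a I e).powersetCard s).filter (fun S => mono a S ⊆ I)).card := by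
  classical
  set P := atom a I e with hP
  have hN : ∀ S ∈ P.powersetCard s, ∀ S' ∈ P.powersetCard s,
      ¬ mono a S ⊆ I → ¬ mono a S' ⊆ I → S ∪ S' ≠ P := by
    intro S hS S' hS' h1 h2 hU
    rw [mem_powersetCard] at hS hS'
    rw [not_subset] at h1 h2
    obtain ⟨i, hi, hiI⟩ := h1
    obtain ⟨j, hj, hjI⟩ := h2
    obtain ⟨b, hb⟩ := (mem_mono a S i).1 hi
    obtain ⟨c, hc⟩ := (mem_mono a S' j).1 hj
    have hout : ∀ x, x ∈ P → a i x = !b → a j x = !c → False := by
      intro x hx h3 h4
      rw [← hU, mem_union] at hx
      rcases hx with hx | hx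
      · rw [hb x hx] at h3
        cases b <;> simp at h3
      · rw [hc x hx] at h4
        cases c <;> simp at h4
    by_cases hij : i = j
    · subst hij
      by_cases hbc : b = c
      · subst hbc
        obtain ⟨x, hx⟩ := h.exists_of_le hr (insert i I)
          (by rw [card_insert_of_notMem hiI]; omega) (Function.update e i (!b))
        have hxP : x ∈ P := by
          rw [hP, mem_atom]
          intro k hk
          have hki : k ≠ i := fun hh => hiI (hh ▸ hk)
          have := hx k (mem_insert_of_mem hk)
          rwa [Function.update_of_ne hki] at this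
        have hxi := hx i (mem_insert_self i I)
        rw [Function.update_self] at hxi
        exact hout x hxP hxi hxi
      · have hdis : Disjoint S S' := by
          rw [disjoint_left]
          intro x hx hx'
          exact hbc ((hb x hx).symm.trans (hc x hx'))
        have h3 := card_union_of_disjoint hdis
        rw [hU, hS.2, hS'.2] at h3
        omega
    · have hjI' : j ∉ insert i I := by
        rw [mem_insert]; push Not; exact ⟨fun hh => hij hh.symm, hjI⟩
      obtain ⟨x, hx⟩ := h.exists_of_le hr (insert j (insert i I))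
        (by rw [card_insert_of_notMem hjI', card_insert_of_notMem hiI]; omega)
        (Function.update (Function.update e i (!b)) j (!c))
      have hxP : x ∈ P := by
        rw [hP, mem_atom]
        intro k hk
        have hki : k ≠ i := fun hh => hiI (hh ▸ hk)
        have hkj : k ≠ j := fun hh => hjI (hh ▸ hk)
        have := hx k (mem_insert_of_mem (mem_insert_of_mem hk))
        rwa [Function.update_of_ne hkj, Function.update_of_ne hki] at this
      have hxi := hx i (mem_insert_of_mem (mem_insert_self i I))
      have hxj := hx j (mem_insert_self j _)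
      rw [Function.update_of_ne hij, Function.update_self] at hxi
      rw [Function.update_self] at hxj
      exact hout x hxP hxi hxj
  have h1 := own_half P s hs (fun S => ¬ mono a S ⊆ I) hN
  have h2 : (P.powersetCard s).filter (fun S => ¬ ¬ mono a S ⊆ I) =
      (P.powersetCard s).filter (fun S => mono a S ⊆ I) := by
    apply filter_congr
    intro S _
    exact not_not
  rw [h2] at h1
  exact h1

theorem two_le_card_atom {r : ℕ} {a : ι → X → Bool} (h : QIb r a) (hr : r ≤ Fintype.card ι)
    (I : Finset ι) (hI : I.card + 2 = r) (e : ι → Bool) : 2 ≤ (atom a I e).card := by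
  have hex : ∃ i, i ∉ I := by
    by_contra hno
    push Not at hno
    have h1 : I = univ := eq_univ_iff_forall.2 hno
    rw [h1, card_univ] at hI
    omega
  obtain ⟨i, hi⟩ := hex
  have hin : ∀ b : Bool, ∃ x, x ∈ atom a I e ∧ a i x = b := by
    intro b
    obtain ⟨x, hx⟩ := h.exists_of_le hr (insert i I)
      (by rw [card_insert_of_notMem hi]; omega) (Function.update e i b)
    refine ⟨x, ?_, ?_⟩
    · rw [mem_atom]
      intro k hk
      have hki : k ≠ i := fun hh => hi (hh ▸ hk)
      have := hx k (mem_insert_of_mem hk)
      rwa [Function.update_of_ne hki] at this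
    · have := hx i (mem_insert_self i I)
      rwa [Function.update_self] at this
  obtain ⟨x, hx, hx'⟩ := hin true
  obtain ⟨y, hy, hy'⟩ := hin false
  have hxy : x ≠ y := by
    intro hh
    rw [hh, hy'] at hx'
    simp at hx'
  have : 1 < (atom a I e).card := one_lt_card.2 ⟨x, hx, y, hy, hxy⟩
  omega

end

/-- The own-subset count at level `r - 2`. -/
theorem eff_count {ι : Type*} [Fintype ι] [DecidableEq ι] {r n : ℕ} {a : ι → Fin n → Bool}
    (h : QIb r a) (hr : r ≤ Fintype.card ι) (hr3 : 3 ≤ r) :
    ((Fintype.card ι).choose (r - 2) : ℝ) ≤ ∑ p ∈ Finset.Icc 2 (n / 2 ^ (r - 2)),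
      2 * (n.choose (p / 2 + 1) : ℝ) / (p.choose (p / 2 + 1) : ℝ) := by
  classical
  choose E hE using fun I : Finset ι => exists_small_atom a I
  set U := (Finset.univ : Finset ι).powersetCard (r - 2) with hU
  have hmem : ∀ I ∈ U, (atom a I (E I)).card ∈ Finset.Icc 2 (n / 2 ^ (r - 2)) := by
    intro I hI
    rw [hU, mem_powersetCard] at hI
    rw [mem_Icc]
    refine ⟨two_le_card_atom h hr I (by omega) _, ?_⟩
    have := hE I
    rwa [Fintype.card_fin, hI.2] at this
  have hcard : (Fintype.card ι).choose (r - 2) = ∑ p ∈ Finset.Icc 2 (n / 2 ^ (r - 2)),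
      (U.filter (fun I => (atom a I (E I)).card = p)).card := by
    rw [← card_eq_sum_card_fiberwise (s := U) (t := Finset.Icc 2 (n / 2 ^ (r - 2)))
      (f := fun I => (atom a I (E I)).card) (fun I hI => hmem I hI), hU, card_powersetCard, card_univ]
  rw [hcard]
  push_cast
  apply sum_le_sum
  intro p hp
  rw [mem_Icc] at hp
  set s := p / 2 + 1 with hs
  have hsp : s ≤ p := by omega
  have hps : p < 2 * s := by omega
  have hpos : (0 : ℝ) < (p.choose s : ℝ) := by exact_mod_cast Nat.choose_pos hsp
  rw [le_div_iff₀ hpos]
  set W := U.filter (fun I => (atom a I (E I)).card = p) with hW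
  have hWm : ∀ I ∈ W, I.card = r - 2 ∧ (atom a I (E I)).card = p := by
    intro I hI
    rw [hW, mem_filter, hU, mem_powersetCard] at hI
    exact ⟨hI.1.2, hI.2⟩
  set Own : Finset ι → Finset (Finset (Fin n)) := fun I =>
    ((atom a I (E I)).powersetCard s).filter (fun S => mono a S ⊆ I) with hOwn
  have h1 : W.card * p.choose s ≤ ∑ I ∈ W, 2 * (Own I).card := by
    rw [← smul_eq_mul]
    apply card_nsmul_le_sum
    intro I hI
    obtain ⟨h2, h3⟩ := hWm I hI
    have h4 := atom_own h hr I (by omega) (E I) s (by rw [h3]; exact hps)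
    rw [h3] at h4
    exact h4
  have h2 : ∑ I ∈ W, (Own I).card = (W.biUnion Own).card := by
    rw [card_biUnion]
    intro I hI J hJ hIJ
    rw [Function.onFun, disjoint_left]
    intro S hS hS'
    rw [hOwn, mem_filter, mem_powersetCard] at hS hS'
    apply hIJ
    have hsub : ∀ K : Finset ι, K.card = r - 2 → S ⊆ atom a K (E K) → mono a S ⊆ K →
        K = mono a S := by
      intro K _ h3 h4
      apply subset_antisymm _ h4
      intro i hi
      rw [mem_mono]
      exact ⟨E K i, fun x hx => (mem_atom a K (E K) x).1 (h3 hx) i hi⟩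
    rw [hsub I (hWm I hI).1 hS.1.1 hS.2, hsub J (hWm J hJ).1 hS'.1.1 hS'.2]
  have h3 : (W.biUnion Own).card ≤ n.choose s := by
    have : W.biUnion Own ⊆ (Finset.univ : Finset (Fin n)).powersetCard s := by
      intro S hS
      rw [mem_biUnion] at hS
      obtain ⟨I, _, hS⟩ := hS
      rw [hOwn, mem_filter, mem_powersetCard] at hS
      rw [mem_powersetCard]
      exact ⟨subset_univ _, hS.1.2⟩
    have := card_le_card this
    rwa [card_powersetCard, card_univ, Fintype.card_fin] at this
  have h4 : W.card * p.choose s ≤ 2 * n.choose s := by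
    rw [← mul_sum, h2] at h1
    omega
  exact_mod_cast h4

end Pool.Agent.MP_7a59f9_co
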