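import Mathlib

/-!
Analysis of the own-subset count at level `r - 2`.
-/

namespace Pool.Agent.MP_7a59f9_co

open Finset Filter Topology

theorem choose_mid (p : ℕ) (hp : 2 ≤ p) : 2 ^ p ≤ 2 * (p + 1) * p.choose (p / 2 + 1) := by
  have h1 : 2 ^ p ≤ (p + 1) * p.choose (p / 2) := by
    rw [← Nat.sum_range_choose p]
    calc ∑ m ∈ Finset.range (p + 1), p.choose m ≤ ∑ _m ∈ Finset.range (p + 1), p.choose (p / 2) :=
          Finset.sum_le_sum (fun i _ => Nat.choose_le_middle i p)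
      _ = (p + 1) * p.choose (p / 2) := by
          rw [Finset.sum_const, Finset.card_range, smul_eq_mul]
  have h2 : p.choose (p / 2) ≤ 2 * p.choose (p / 2 + 1) := by
    have e := Nat.choose_succ_right_eq p (p / 2)
    have h3 : p / 2 + 1 ≤ 2 * (p - p / 2) := by omega
    have h4 : 0 < p - p / 2 := by omega
    have h5 : p.choose (p / 2) * (p - p / 2) ≤ (2 * p.choose (p / 2 + 1)) * (p - p / 2) := by
      rw [← e]
      calc p.choose (p / 2 + 1) * (p / 2 + 1) ≤ p.choose (p / 2 + 1) * (2 * (p - p / 2)) :=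
            Nat.mul_le_mul_left _ h3
        _ = (2 * p.choose (p / 2 + 1)) * (p - p / 2) := by ring
    exact Nat.le_of_mul_le_mul_right h5 h4
  calc 2 ^ p ≤ (p + 1) * p.choose (p / 2) := h1
    _ ≤ (p + 1) * (2 * p.choose (p / 2 + 1)) := Nat.mul_le_mul_left _ h2
    _ = 2 * (p + 1) * p.choose (p / 2 + 1) := by ring

theorem choose_gen (n k : ℕ) (z : ℝ) (hz : 0 < z) : (n.choose k : ℝ) * z ^ k ≤ (1 + z) ^ n := by
  by_cases hk : k ≤ n
  · rw [add_comm, add_pow]
    have := Finset.single_le_sum (f := fun m => z ^ m * 1 ^ (n - m) * (n.choose m : ℝ))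
      (s := Finset.range (n + 1)) (fun i _ => by positivity) (Finset.mem_range.2 (Nat.lt_succ_of_le hk))
    simp only [one_pow, mul_one] at this ⊢
    rw [mul_comm]
    exact this
  · rw [Nat.choose_eq_zero_of_lt (not_le.1 hk)]
    simp only [Nat.cast_zero, zero_mul]
    positivity

theorem term_bound (n p s : ℕ) (hs : 2 ≤ s) (hp : 2 ≤ p) (hpn : p ≤ n / 2 ^ s) :
    2 * ((n.choose (p / 2 + 1) : ℕ) : ℝ) / ((p.choose (p / 2 + 1) : ℕ) : ℝ) ≤
      4 * (n + 1) * 2 ^ (s + 1) *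
        Real.exp (n * ((1 / 2 ^ (s + 1) : ℝ) * (1 - (1 / 2 ^ (s + 1) : ℝ) / 2 + (s - 1) * Real.log 2))) := by
  set x : ℝ := 1 / 2 ^ (s + 1) with hx
  have h2s : (8 : ℝ) ≤ 2 ^ (s + 1) := by
    calc (8 : ℝ) = 2 ^ 3 := by norm_num
      _ ≤ 2 ^ (s + 1) := pow_le_pow_right₀ (by norm_num) (by omega)
  have hx0 : 0 < x := by rw [hx]; positivity
  have hx8 : x ≤ 1 / 8 := by
    rw [hx]; exact one_div_le_one_div_of_le (by norm_num) h2s
  have hx1 : 0 < 1 - x := by linarith
  set z : ℝ := x / (1 - x) with hz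
  have hz0 : 0 < z := by positivity
  set k := p / 2 + 1 with hk
  have hlogx : Real.log x = -((s + 1) * Real.log 2) := by
    rw [hx, Real.log_div one_ne_zero (by positivity), Real.log_one, Real.log_pow]
    push_cast; ring
  have hlogz : Real.log z = Real.log x - Real.log (1 - x) := by
    rw [hz, Real.log_div hx0.ne' hx1.ne']
  have h1z : 1 + z = 1 / (1 - x) := by
    rw [hz]; field_simp; ring
  have hlog1z : Real.log (1 + z) = -Real.log (1 - x) := by
    rw [h1z, Real.log_div one_ne_zero hx1.ne', Real.log_one]; ring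
  have hl2 : 0 < Real.log 2 := Real.log_pos (by norm_num)
  have hl1x : Real.log (1 - x) ≤ 0 := Real.log_nonpos hx1.le (by linarith)
  -- -(1-x) log (1-x) ≤ x - x^2/2
  have hent : -((1 - x) * Real.log (1 - x)) ≤ x - x ^ 2 / 2 := by
    have hu : 1 ≤ 1 / (1 - x) := by rw [le_div_iff₀ hx1]; linarith
    have h0 : 0 ≤ Real.log (1 / (1 - x)) := Real.log_nonneg hu
    have h1 : Real.log (1 / (1 - x)) ≤ (1 / (1 - x) - (1 / (1 - x))⁻¹) / 2 := by
      have := Real.self_le_sinh_iff.2 h0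
      rwa [Real.sinh_log (by positivity)] at this
    rw [Real.log_div one_ne_zero hx1.ne', Real.log_one] at h1
    have h2 : (1 - x) * (0 - Real.log (1 - x)) ≤
        (1 - x) * ((1 / (1 - x) - (1 / (1 - x))⁻¹) / 2) :=
      mul_le_mul_of_nonneg_left h1 hx1.le
    have h3 : (1 - x) * ((1 / (1 - x) - (1 / (1 - x))⁻¹) / 2) = x - x ^ 2 / 2 := by
      field_simp; ring
    rw [h3] at h2
    linarith
  -- b ≥ 0
  have hb : 0 ≤ -(Real.log z) / 2 - Real.log 2 := by
    have h1 : Real.log z ≤ Real.log (1 / 7) := by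
      apply Real.log_le_log hz0
      rw [hz, div_le_div_iff₀ hx1 (by norm_num)]
      linarith
    have h2 : Real.log (1 / 7) ≤ Real.log (1 / 4) := Real.log_le_log (by norm_num) (by norm_num)
    have h3 : Real.log (1 / 4) = -(2 * Real.log 2) := by
      rw [show (1 / 4 : ℝ) = (2 ^ 2)⁻¹ by norm_num, Real.log_inv, Real.log_pow]
      push_cast; ring
    linarith
  have hpR : (p : ℝ) ≤ 2 * x * n := by
    have h1 : p * 2 ^ s ≤ n := (Nat.le_div_iff_mul_le (by positivity)).1 hpn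
    have h2 : (p : ℝ) * 2 ^ s ≤ n := by exact_mod_cast h1
    have h3 : 2 * x * 2 ^ s = 1 := by
      rw [hx, pow_succ]; field_simp
    have h4 : (p : ℝ) = 2 * x * (p * 2 ^ s) := by
      calc (p : ℝ) = p * 1 := by ring
        _ = p * (2 * x * 2 ^ s) := by rw [h3]
        _ = _ := by ring
    rw [h4]
    exact mul_le_mul_of_nonneg_left h2 (by positivity)
  have hkR : (k : ℝ) ≤ p / 2 + 1 := by
    have h1 : ((p / 2 : ℕ) : ℝ) ≤ (p : ℝ) / 2 := by
      have := Nat.cast_div_le (α := ℝ) (m := p) (n := 2)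
      simpa using this
    rw [hk]; push_cast; linarith
  have hpn' : (p : ℝ) ≤ n := by
    have : p ≤ n := le_trans hpn (Nat.div_le_self _ _)
    exact_mod_cast this
  have hcp : 0 < p.choose k := Nat.choose_pos (by omega)
  have hcpR : (0 : ℝ) < (p.choose k : ℝ) := by exact_mod_cast hcp
  rw [div_le_iff₀ hcpR]
  have hmid : (2 : ℝ) ^ p ≤ 2 * (p + 1) * (p.choose k : ℝ) := by
    have := choose_mid p hp
    rw [← hk] at this
    exact_mod_cast this
  -- the main bound in exponential form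
  have hgen := choose_gen n k z hz0
  have hzk : z ^ k = Real.exp (k * Real.log z) := by
    rw [mul_comm, Real.exp_mul, Real.exp_log hz0, Real.rpow_natCast]
  have h1zn : (1 + z) ^ n = Real.exp (n * -Real.log (1 - x)) := by
    rw [← hlog1z, mul_comm, Real.exp_mul, Real.exp_log (by positivity), Real.rpow_natCast]
  have h2p : (2 : ℝ) ^ p = Real.exp (p * Real.log 2) := by
    rw [mul_comm, Real.exp_mul, Real.exp_log (by norm_num), Real.rpow_natCast]
  have hchoose : (n.choose k : ℝ) ≤ Real.exp (n * -Real.log (1 - x) - k * Real.log z) := by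
    rw [Real.exp_sub, ← hzk, ← h1zn, le_div_iff₀ (by positivity)]
    exact hgen
  have hlz : Real.log z ≤ 0 := by linarith
  have hexp1 : n * -Real.log (1 - x) - k * Real.log z ≤
      -Real.log z + p * Real.log 2 + n * (x * (1 - x / 2 + (s - 1) * Real.log 2)) := by
    have e1 : -(k * Real.log z) ≤ -((p / 2 + 1) * Real.log z) := by
      nlinarith
    have e2 : p * (-(Real.log z) / 2 - Real.log 2) ≤ 2 * x * n * (-(Real.log z) / 2 - Real.log 2) :=
      mul_le_mul_of_nonneg_right hpR hb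
    have e3 : n * -Real.log (1 - x) + 2 * x * n * (-(Real.log z) / 2 - Real.log 2) ≤
        n * (x * (1 - x / 2 + (s - 1) * Real.log 2)) := by
      have hn0 : (0 : ℝ) ≤ n := Nat.cast_nonneg n
      have e4 : -Real.log (1 - x) + 2 * x * (-(Real.log z) / 2 - Real.log 2) ≤
          x * (1 - x / 2 + (s - 1) * Real.log 2) := by
        rw [hlogz, hlogx]
        nlinarith [hent]
      calc _ = n * (-Real.log (1 - x) + 2 * x * (-(Real.log z) / 2 - Real.log 2)) := by ring
        _ ≤ _ := mul_le_mul_of_nonneg_left e4 hn0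
    nlinarith
  have hinvz : Real.exp (-Real.log z) ≤ 2 ^ (s + 1) := by
    rw [Real.exp_neg, Real.exp_log hz0, hz, inv_div]
    rw [hx]
    rw [div_le_iff₀ (by positivity)]
    have : (2 : ℝ) ^ (s + 1) * (1 / 2 ^ (s + 1)) = 1 := by field_simp
    rw [this]
    have : 0 < (1 : ℝ) / 2 ^ (s + 1) := by positivity
    linarith
  have hbig : (n.choose k : ℝ) ≤ 2 ^ (s + 1) * 2 ^ p *
      Real.exp (n * (x * (1 - x / 2 + (s - 1) * Real.log 2))) := by
    calc (n.choose k : ℝ) ≤ Real.exp (n * -Real.log (1 - x) - k * Real.log z) := hchoose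
      _ ≤ Real.exp (-Real.log z + p * Real.log 2 + n * (x * (1 - x / 2 + (s - 1) * Real.log 2))) :=
          Real.exp_le_exp.2 hexp1
      _ = Real.exp (-Real.log z) * 2 ^ p * Real.exp (n * (x * (1 - x / 2 + (s - 1) * Real.log 2))) := by
          rw [Real.exp_add, Real.exp_add, h2p]
      _ ≤ _ := by gcongr
  set G := Real.exp (n * (x * (1 - x / 2 + (s - 1) * Real.log 2))) with hG
  have hG0 : 0 < G := Real.exp_pos _
  calc 2 * (n.choose k : ℝ) ≤ 2 * (2 ^ (s + 1) * 2 ^ p * G) := by linarith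
    _ = 2 * 2 ^ (s + 1) * G * 2 ^ p := by ring
    _ ≤ 2 * 2 ^ (s + 1) * G * (2 * (p + 1) * (p.choose k : ℝ)) := by gcongr
    _ ≤ 2 * 2 ^ (s + 1) * G * (2 * (n + 1) * (p.choose k : ℝ)) := by gcongr
    _ = 4 * (n + 1) * 2 ^ (s + 1) * G * (p.choose k : ℝ) := by ring

/-- The own-subset count at level `r - 2` gives the rate `2 + 0.89 / (r - 2)`. -/
theorem eff_analysis (r : ℕ) (hr : 4 ≤ r) : ∃ n₀ : ℕ, ∀ n ≥ n₀, ∀ m : ℕ,
    ((m.choose (r - 2) : ℕ) : ℝ) ≤ ∑ p ∈ Finset.Icc 2 (n / 2 ^ (r - 2)),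
      2 * ((n.choose (p / 2 + 1) : ℕ) : ℝ) / ((p.choose (p / 2 + 1) : ℕ) : ℝ) →
    (m : ℝ) ≤ (2 : ℝ) ^ ((2 + (0.89 - 2.88 / 2 ^ r) / ((r : ℝ) - 2)) * n / 2 ^ r) := by
  obtain ⟨s, rfl⟩ : ∃ s, r = s + 2 := ⟨r - 2, by omega⟩
  have hs : 2 ≤ s := by omega
  rw [Nat.add_sub_cancel]
  set x : ℝ := 1 / 2 ^ (s + 1) with hx
  have hx0 : 0 < x := by rw [hx]; positivity
  have hl2 : 0.6931471803 < Real.log 2 := Real.log_two_gt_d9
  set η : ℝ := 1.445 * Real.log 2 - 1 with hη
  have hη0 : 0 < η := by rw [hη]; norm_num at hl2 ⊢; linarith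
  set K : ℝ := 2 ^ s * s.factorial * (4 * 2 ^ (s + 1)) with hK
  have hK0 : 0 < K := by positivity
  -- n large
  have hr1 : |Real.exp (-(x * η))| < 1 := by
    rw [abs_of_pos (Real.exp_pos _)]
    rw [← Real.exp_zero]
    exact Real.exp_lt_exp.2 (by nlinarith [mul_pos hx0 hη0])
  have ht := tendsto_pow_const_mul_const_pow_of_abs_lt_one 2 hr1
  have hev : ∀ᶠ n : ℕ in atTop, (n : ℝ) ^ 2 * Real.exp (-(x * η)) ^ n < 1 / (2 * K) :=
    ht.eventually (gt_mem_nhds (by positivity))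
  have hsR : (0 : ℝ) < s := by exact_mod_cast (by omega : 0 < s)
  set lam : ℝ := (2 + (0.89 - 2.88 / 2 ^ (s + 2)) / s) / 2 ^ (s + 2) with hlam
  have h16 : (16 : ℝ) ≤ 2 ^ (s + 2) := by
    calc (16 : ℝ) = 2 ^ 4 := by norm_num
      _ ≤ 2 ^ (s + 2) := pow_le_pow_right₀ (by norm_num) (by omega)
  have h089 : (0 : ℝ) < 0.89 - 2.88 / 2 ^ (s + 2) := by
    have : (2.88 : ℝ) / 2 ^ (s + 2) ≤ 2.88 / 16 := by gcongr
    norm_num at this ⊢; linarith
  have hlam0 : 0 < lam := by rw [hlam]; positivity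
  have hev2 : ∀ᶠ n : ℕ in atTop, (2 * s : ℝ) < (2 : ℝ) ^ (lam * n) := by
    have h1 : Tendsto (fun n : ℕ => (2 : ℝ) ^ (lam * (n : ℝ))) atTop atTop := by
      have h2 : Tendsto (fun n : ℕ => lam * (n : ℝ)) atTop atTop :=
        Tendsto.const_mul_atTop hlam0 tendsto_natCast_atTop_atTop
      exact (tendsto_rpow_atTop_of_base_gt_one (2 : ℝ) (by norm_num)).comp h2
    exact h1.eventually (eventually_gt_atTop _)
  obtain ⟨n0, hn0⟩ := (hev.and (hev2.and (eventually_ge_atTop 1))).exists_forall_of_atTop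
  refine ⟨n0, fun n hn m hm => ?_⟩
  obtain ⟨hn1, hn2, hn3⟩ := hn0 n hn
  have hnR : (1 : ℝ) ≤ n := by exact_mod_cast hn3
  by_contra hcon
  push Not at hcon
  have hexpo : (2 + (0.89 - 2.88 / 2 ^ (s + 2)) / (((s + 2 : ℕ) : ℝ) - 2)) * n / 2 ^ (s + 2) = lam * n := by
    rw [hlam]; push_cast; ring_nf
  rw [hexpo] at hcon
  have hms : (2 * s : ℝ) < m := lt_trans hn2 hcon
  have hms' : 2 * s < m := by exact_mod_cast hms
  -- upper bound of the sum
  have hsum : ∑ p ∈ Finset.Icc 2 (n / 2 ^ s),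
      2 * ((n.choose (p / 2 + 1) : ℕ) : ℝ) / ((p.choose (p / 2 + 1) : ℕ) : ℝ) ≤
      n * (4 * (n + 1) * 2 ^ (s + 1) * Real.exp (n * (x * (1 - x / 2 + (s - 1) * Real.log 2)))) := by
    calc _ ≤ ∑ p ∈ Finset.Icc 2 (n / 2 ^ s), (4 * (n + 1) * 2 ^ (s + 1) *
          Real.exp (n * (x * (1 - x / 2 + (s - 1) * Real.log 2)))) := by
          apply Finset.sum_le_sum
          intro p hp
          rw [Finset.mem_Icc] at hp
          exact term_bound n p s hs hp.1 hp.2
      _ = ((Finset.Icc 2 (n / 2 ^ s)).card : ℝ) * (4 * (n + 1) * 2 ^ (s + 1) *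
          Real.exp (n * (x * (1 - x / 2 + (s - 1) * Real.log 2)))) := by
          rw [Finset.sum_const, nsmul_eq_mul]
      _ ≤ _ := by
          apply mul_le_mul_of_nonneg_right _ (by positivity)
          have h1 : (Finset.Icc 2 (n / 2 ^ s)).card ≤ n := by
            rw [Nat.card_Icc]
            have := Nat.div_le_self n (2 ^ s)
            omega
          exact_mod_cast h1
  -- lower bound of the binomial coefficient
  have hchoose : ((m : ℝ) / 2) ^ s ≤ s.factorial * (m.choose s : ℝ) := by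
    have h1 : (m + 1 - s) ^ s ≤ s.factorial * m.choose s := by
      have := Nat.pow_sub_le_descFactorial m s
      rwa [Nat.descFactorial_eq_factorial_mul_choose] at this
    have h2 : (m : ℝ) / 2 ≤ ((m + 1 - s : ℕ) : ℝ) := by
      rw [Nat.cast_sub (by omega)]
      push_cast
      linarith
    calc ((m : ℝ) / 2) ^ s ≤ ((m + 1 - s : ℕ) : ℝ) ^ s := pow_le_pow_left₀ (by positivity) h2 s
      _ ≤ s.factorial * (m.choose s : ℝ) := by exact_mod_cast h1
  have hfac : (0 : ℝ) < s.factorial := by exact_mod_cast Nat.factorial_pos s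
  set E := Real.exp (n * (x * (1 - x / 2 + (s - 1) * Real.log 2))) with hE
  have hE0 : 0 < E := Real.exp_pos _
  have hpow : (m : ℝ) ^ s ≤ K * (n * (n + 1)) * E := by
    have h1 : ((m : ℝ) / 2) ^ s = (m : ℝ) ^ s / 2 ^ s := div_pow _ _ _
    rw [h1, div_le_iff₀ (by positivity)] at hchoose
    calc (m : ℝ) ^ s ≤ s.factorial * (m.choose s : ℝ) * 2 ^ s := hchoose
      _ ≤ s.factorial * (n * (4 * (n + 1) * 2 ^ (s + 1) * E)) * 2 ^ s := by
          have := le_trans hm hsum
          gcongr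
      _ = K * (n * (n + 1)) * E := by rw [hK]; ring
  have hlow : Real.exp (n * (x * (s + (0.445 - 0.72 * x)) * Real.log 2)) ≤ (m : ℝ) ^ s := by
    have h1 : ((2 : ℝ) ^ (lam * n)) ^ s ≤ (m : ℝ) ^ s := pow_le_pow_left₀ (by positivity) hcon.le s
    refine le_trans (le_of_eq ?_) h1
    rw [← Real.rpow_natCast, ← Real.rpow_mul (by norm_num), Real.rpow_def_of_pos (by norm_num)]
    congr 1
    have h2 : lam * s = x * (s + (0.445 - 0.72 * x)) := by
      rw [hlam, hx, pow_succ 2 (s + 1)]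
      field_simp
      ring
    calc n * (x * (s + (0.445 - 0.72 * x)) * Real.log 2) = Real.log 2 * (n * (lam * s)) := by rw [h2]; ring
      _ = Real.log 2 * (lam * n * s) := by ring
  have hfinal : E * Real.exp (x * η) ^ n ≤ Real.exp (n * (x * (s + (0.445 - 0.72 * x)) * Real.log 2)) := by
    rw [hE, ← Real.exp_nat_mul, ← Real.exp_add]
    apply Real.exp_le_exp.2
    have hl3 : Real.log 2 < 0.6931471808 := Real.log_two_lt_d9
    have h1 : x * (1 - x / 2 + (s - 1) * Real.log 2) + x * η ≤ x * (s + (0.445 - 0.72 * x)) * Real.log 2 := by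
      have h2 : 0 ≤ x * x * (0.5 - 0.72 * Real.log 2) := by
        apply mul_nonneg (by positivity)
        norm_num at hl3 ⊢; linarith
      rw [hη]
      nlinarith
    calc n * (x * (1 - x / 2 + (s - 1) * Real.log 2)) + n * (x * η) =
        n * (x * (1 - x / 2 + (s - 1) * Real.log 2) + x * η) := by ring
      _ ≤ n * (x * (s + (0.445 - 0.72 * x)) * Real.log 2) := mul_le_mul_of_nonneg_left h1 (by positivity)
  have h5 : E * Real.exp (x * η) ^ n ≤ K * (n * (n + 1)) * E :=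
    le_trans hfinal (le_trans hlow hpow)
  have h6 : Real.exp (x * η) ^ n ≤ K * (n * (n + 1)) := by
    have : Real.exp (x * η) ^ n * E ≤ K * (n * (n + 1)) * E := by linarith
    exact le_of_mul_le_mul_right this hE0
  have h7 : K * (n * (n + 1)) ≤ 2 * K * (n : ℝ) ^ 2 := by
    have : (n : ℝ) * (n + 1) ≤ 2 * (n : ℝ) ^ 2 := by nlinarith
    calc K * (n * (n + 1)) ≤ K * (2 * (n : ℝ) ^ 2) := mul_le_mul_of_nonneg_left this hK0.le
      _ = _ := by ring
  have h8 : Real.exp (-(x * η)) ^ n = (Real.exp (x * η) ^ n)⁻¹ := by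
    rw [Real.exp_neg, inv_pow]
  rw [h8] at hn1
  have hep : 0 < Real.exp (x * η) ^ n := by positivity
  have h9 : (n : ℝ) ^ 2 * (Real.exp (x * η) ^ n)⁻¹ * (2 * K * Real.exp (x * η) ^ n) <
      1 / (2 * K) * (2 * K * Real.exp (x * η) ^ n) :=
    mul_lt_mul_of_pos_right hn1 (by positivity)
  have h10 : (n : ℝ) ^ 2 * (Real.exp (x * η) ^ n)⁻¹ * (2 * K * Real.exp (x * η) ^ n) = 2 * K * n ^ 2 := by
    field_simp
  have h11 : 1 / (2 * K) * (2 * K * Real.exp (x * η) ^ n) = Real.exp (x * η) ^ n := by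
    field_simp
  rw [h10, h11] at h9
  linarith

end Pool.Agent.MP_7a59f9_co
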