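import Pool.Agent.Lib.MP_7a59f9_co.Eff
import Pool.Agent.Lib.MP_7a59f9_co.EffAn
import Pool.Agent.Lib.MP_7a59f9_co.Cert

/-!
The own-subset bound for every `r ≥ 4`, and the step function used in the final statement.
-/

namespace Pool.Agent.MP_7a59f9_co

open Finset Filter Topology

theorem eff_bound (r : ℕ) (hr : 4 ≤ r) : ∃ n0 : ℕ, ∀ n ≥ n0, ∀ (m : ℕ) (A : Fin m → Finset (Fin n)),
    QI r A → (m : ℝ) ≤ (2 : ℝ) ^ ((2 + (0.89 - 2.88 / 2 ^ r) / ((r : ℝ) - 2)) * n / 2 ^ r) := by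
  obtain ⟨n1, hn1⟩ := eff_analysis r hr
  set lam : ℝ := (2 + (0.89 - 2.88 / 2 ^ r) / ((r : ℝ) - 2)) / 2 ^ r with hlam
  have h16 : (16 : ℝ) ≤ 2 ^ r := by
    calc (16 : ℝ) = 2 ^ 4 := by norm_num
      _ ≤ 2 ^ r := pow_le_pow_right₀ (by norm_num) hr
  have h089 : (0 : ℝ) < 0.89 - 2.88 / 2 ^ r := by
    have : (2.88 : ℝ) / 2 ^ r ≤ 2.88 / 16 := by gcongr
    norm_num at this ⊢; linarith
  have hr2 : (0 : ℝ) < (r : ℝ) - 2 := by
    have : (4 : ℝ) ≤ r := by exact_mod_cast hr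
    linarith
  have hlam0 : 0 < lam := by rw [hlam]; positivity
  have hev2 : ∀ᶠ n : ℕ in atTop, (r : ℝ) < (2 : ℝ) ^ (lam * n) := by
    have h1 : Tendsto (fun n : ℕ => (2 : ℝ) ^ (lam * (n : ℝ))) atTop atTop := by
      have h2 : Tendsto (fun n : ℕ => lam * (n : ℝ)) atTop atTop :=
        Tendsto.const_mul_atTop hlam0 tendsto_natCast_atTop_atTop
      exact (tendsto_rpow_atTop_of_base_gt_one (2 : ℝ) (by norm_num)).comp h2
    exact h1.eventually (eventually_gt_atTop _)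
  obtain ⟨n2, hn2⟩ := hev2.exists_forall_of_atTop
  refine ⟨max n1 n2, fun n hn m A hA => ?_⟩
  have he : (2 + (0.89 - 2.88 / 2 ^ r) / ((r : ℝ) - 2)) * n / 2 ^ r = lam * n := by
    rw [hlam]; ring
  by_cases hm : r ≤ m
  · apply hn1 n (le_trans (le_max_left _ _) hn)
    have h := eff_count (hA.toQIb le_rfl) (by rw [Fintype.card_fin]; exact hm) (by omega)
    rw [Fintype.card_fin] at h
    exact h
  · rw [he]
    have h1 := hn2 n (le_trans (le_max_right _ _) hn)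
    have h2 : (m : ℝ) ≤ r := by exact_mod_cast (not_le.1 hm).le
    linarith

end Pool.Agent.MP_7a59f9_co
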