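import Pool.Agent.Lib.MP_7a59f9_co.Asym
import Pool.Agent.Lib.MP_7a59f9_co.Defs

/-!
From eventual goodness to the bound on the size of the family.
-/

namespace Pool.Agent.MP_7a59f9_co

open Finset Filter Topology

set_option linter.unusedSectionVars false

theorem QI.toQIb {r m n M : ℕ} {A : Fin m → Finset (Fin n)} (h : QI r A) (hM : M ≤ m) :
    QIb r (fun (i : Fin M) (x : Fin n) => decide (x ∈ A (Fin.castLE hM i))) := by
  classical
  intro I hI e
  set φ : Fin M ↪ Fin m := ⟨Fin.castLE hM, Fin.castLE_injective hM⟩ with hφ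
  obtain ⟨x, hx⟩ := h (I.map φ) (by rw [Finset.card_map]; exact hI)
    ((I.filter (fun i => e i = true)).map φ) (Finset.map_subset_map.2 (Finset.filter_subset _ _))
  refine ⟨x, fun i hi => ?_⟩
  have h1 := hx (φ i) (Finset.mem_map_of_mem φ hi)
  have h2 : φ i ∈ (I.filter (fun i => e i = true)).map φ ↔ e i = true := by
    rw [Finset.mem_map' φ, Finset.mem_filter]
    exact ⟨fun h => h.2, fun h => ⟨hi, h⟩⟩
  rw [h2] at h1
  have h3 : (x ∈ A (Fin.castLE hM i)) ↔ e i = true := h1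
  by_cases he : e i = true
  · rw [he]; simp [h3, he]
  · have he' : e i = false := by simpa using he
    rw [he']
    simp [h3, he']

/-- The final contradiction at a fixed `r`. -/
theorem contra (q q' T y r : ℕ) (hq : 1 ≤ q) (hqy : q ≤ y) (hT : T < r)
    (hq' : 1 ≤ q')
    (hev : EvGood q q' T y)
    (hcert : (Real.exp 1 * y / q) ^ q < 2 ^ ((q' - q) * (r - T))) (hqq : q ≤ q') :
    ∃ k0 : ℕ, ∀ k ≥ k0, ∀ (n : ℕ) (a : Fin (2 ^ (q' * k - 1)) → Fin n → Bool),
      2 ^ (r - T) * y * (k - 1) ≤ n → n ≤ 2 ^ (r - T) * (y * k) → ¬ QIb r a := by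
  obtain ⟨k0, hk0⟩ := hev r
  set j := r - T with hj
  have hj1 : 1 ≤ j := by omega
  set G : ℝ := (Real.exp 1 * y / q) ^ q * 2 ^ (j * q) with hG
  have hqR : (0 : ℝ) < q := by exact_mod_cast hq
  have hyR : (0 : ℝ) < y := lt_of_lt_of_le hqR (by exact_mod_cast hqy)
  have hGpos : 0 < G := by rw [hG]; positivity
  have hG1 : G < 2 ^ (q' * j) := by
    have e1 : (2 : ℝ) ^ (q' * j) = 2 ^ ((q' - q) * j) * 2 ^ (j * q) := by
      rw [← pow_add]; congr 1
      rw [Nat.sub_mul, mul_comm j q]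
      have : q * j ≤ q' * j := Nat.mul_le_mul_right j hqq
      omega
    rw [e1, hG]
    exact mul_lt_mul_of_pos_right hcert (by positivity)
  have hratio : 1 < (2 : ℝ) ^ (q' * j) / G := by
    rw [one_lt_div hGpos]; exact hG1
  obtain ⟨k1, hk1⟩ := ((tendsto_pow_atTop_atTop_of_one_lt hratio).eventually
    (eventually_gt_atTop ((4 : ℝ) ^ j * j.factorial * 2 ^ r))).exists_forall_of_atTop
  obtain ⟨k2, hk2⟩ := two_pow_large q' (r + 2 * j) hq'
  refine ⟨max (max k0 k1) (max k2 2), fun k hk n a hn1 hn2 ha => ?_⟩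
  have hkk0 : k0 ≤ k := le_trans (le_trans (le_max_left _ _) (le_max_left _ _)) hk
  have hkk1 : k1 ≤ k := le_trans (le_trans (le_max_right _ _) (le_max_left _ _)) hk
  have hkk2 : k2 ≤ k := le_trans (le_trans (le_max_left _ _) (le_max_right _ _)) hk
  have hk2' : 2 ≤ k := le_trans (le_trans (le_max_right _ _) (le_max_right _ _)) hk
  have hkR : (0 : ℝ) < k := by exact_mod_cast (by omega : 0 < k)
  have hlarge := hk2 k hkk2
  have hcount := count (T := T) hT.le (hk0 k hkk0 n a ha) (by rw [Fintype.card_fin]; exact hn2)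
  rw [Fintype.card_fin] at hcount
  set M := 2 ^ (q' * k - 1) with hM
  -- size of the ball
  have hqkn : q * k ≤ n := by
    have h1 : q * k ≤ 2 ^ j * y * (k - 1) := by
      have h2 : 2 ≤ 2 ^ j := by
        calc 2 = 2 ^ 1 := by norm_num
          _ ≤ 2 ^ j := Nat.pow_le_pow_right (by norm_num) hj1
      have h3 : k ≤ 2 * (k - 1) := by omega
      calc q * k ≤ y * (2 * (k - 1)) := Nat.mul_le_mul hqy h3
        _ = 2 * y * (k - 1) := by ring
        _ ≤ 2 ^ j * y * (k - 1) := Nat.mul_le_mul_right _ (Nat.mul_le_mul_right _ h2)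
    exact le_trans h1 hn1
  have hball := card_ball_le (P := Fin n) (q * k) (Nat.mul_pos hq (by omega))
    (by rw [Fintype.card_fin]; exact hqkn)
  rw [Fintype.card_fin] at hball
  have hball2 : (Real.exp 1 * n / (q * k : ℕ)) ^ (q * k) ≤ G ^ k := by
    have h1 : Real.exp 1 * n / (q * k : ℕ) ≤ (Real.exp 1 * y / q) * 2 ^ j := by
      push_cast
      rw [div_le_iff₀ (by positivity)]
      have h2 : (n : ℝ) ≤ 2 ^ j * (y * k) := by exact_mod_cast hn2
      calc Real.exp 1 * n ≤ Real.exp 1 * (2 ^ j * (y * k)) :=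
            mul_le_mul_of_nonneg_left h2 (Real.exp_pos 1).le
        _ = (Real.exp 1 * y / q) * 2 ^ j * (q * k) := by field_simp
    calc (Real.exp 1 * n / (q * k : ℕ)) ^ (q * k) ≤ ((Real.exp 1 * y / q) * 2 ^ j) ^ (q * k) :=
          pow_le_pow_left₀ (by positivity) h1 _
      _ = G ^ k := by
          rw [hG, pow_mul, mul_pow, ← pow_mul]
  -- lower bound for the binomial coefficient
  have hchoose : (2 : ℝ) ^ ((q' * k - 2) * j) ≤ (M.choose j : ℝ) * j.factorial := by
    have h1 : (M + 1 - j) ^ j ≤ j.factorial * M.choose j := by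
      have := Nat.pow_sub_le_descFactorial M j
      rwa [Nat.descFactorial_eq_factorial_mul_choose] at this
    have h2 : 2 ^ (q' * k - 2) ≤ M + 1 - j := by
      have h3 : M = 2 * 2 ^ (q' * k - 2) := by
        have : 2 ≤ q' * k := le_trans hk2' (Nat.le_mul_of_pos_left k hq')
        rw [hM, ← pow_succ']; congr 1; omega
      omega
    have h4 : (2 ^ (q' * k - 2)) ^ j ≤ j.factorial * M.choose j :=
      le_trans (Nat.pow_le_pow_left h2 j) h1
    have h5 : ((2 ^ (q' * k - 2)) ^ j : ℝ) ≤ (j.factorial : ℝ) * M.choose j := by exact_mod_cast h4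
    rw [pow_mul]
    linarith
  have hcountR : (M.choose j : ℝ) ≤ 2 ^ r * G ^ k := by
    have h1 : (M.choose j : ℝ) ≤ 2 ^ r *
        (((Finset.univ : Finset (Finset (Fin n))).filter (fun S => S.card ≤ q * k)).card : ℝ) := by
      exact_mod_cast hcount
    refine le_trans h1 (mul_le_mul_of_nonneg_left (le_trans hball hball2) (by positivity))
  have hbig := hk1 k hkk1
  rw [div_pow, lt_div_iff₀ (pow_pos hGpos k)] at hbig
  have e2 : ((2 : ℝ) ^ (q' * j)) ^ k = 4 ^ j * 2 ^ ((q' * k - 2) * j) := by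
    have : 2 ≤ q' * k := le_trans hk2' (Nat.le_mul_of_pos_left k hq')
    have e3 : (4 : ℝ) ^ j = 2 ^ (2 * j) := by rw [pow_mul]; norm_num
    rw [e3, ← pow_mul, ← pow_add]
    congr 1
    obtain ⟨z, hz⟩ := Nat.exists_eq_add_of_le this
    have e4 : q' * k - 2 = z := by omega
    rw [e4]
    calc q' * j * k = (q' * k) * j := by ring
      _ = (2 + z) * j := by rw [hz]
      _ = 2 * j + z * j := by ring
  rw [e2] at hbig
  have hfpos : (0 : ℝ) < j.factorial := by exact_mod_cast Nat.factorial_pos j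
  have h6 : (M.choose j : ℝ) * j.factorial ≤ 2 ^ r * G ^ k * j.factorial :=
    mul_le_mul_of_nonneg_right hcountR hfpos.le
  have h7 : (4 : ℝ) ^ j * 2 ^ ((q' * k - 2) * j) ≤ 4 ^ j * (2 ^ r * G ^ k * j.factorial) :=
    mul_le_mul_of_nonneg_left (le_trans hchoose h6) (by positivity)
  have h8 : (4 : ℝ) ^ j * (2 ^ r * G ^ k * j.factorial) = 4 ^ j * j.factorial * 2 ^ r * G ^ k := by ring
  linarith

/-- The bound, from a certificate. -/
theorem bound_of_ev (q q' T y r0 : ℕ) (c : ℝ) (hq : 1 ≤ q) (hqy : q ≤ y) (hT : T < r0)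
    (hq' : 1 ≤ q') (hev : EvGood q q' T y) (hqq : q ≤ q')
    (hcert : (Real.exp 1 * y / q) ^ q < 2 ^ ((q' - q) * (r0 - T)))
    (hc : (q' : ℝ) * 2 ^ T < c * y) :
    ∀ r ≥ r0, ∃ n0 : ℕ, ∀ n ≥ n0, ∀ (m : ℕ) (A : Fin m → Finset (Fin n)), QI r A →
      (m : ℝ) ≤ (2 : ℝ) ^ (c * n / 2 ^ r) := by
  intro r hr
  have hTr : T < r := lt_of_lt_of_le hT hr
  have hcert' : (Real.exp 1 * y / q) ^ q < 2 ^ ((q' - q) * (r - T)) := by
    refine lt_of_lt_of_le hcert ?_
    exact pow_le_pow_right₀ (by norm_num) (Nat.mul_le_mul_left _ (by omega))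
  obtain ⟨k0, hk0⟩ := contra q q' T y r hq hqy hTr hq' hev hcert' hqq
  set j := r - T with hj
  have hyR : (0 : ℝ) < y := by exact_mod_cast (lt_of_lt_of_le (by omega : 0 < q) hqy)
  have h2r : (0 : ℝ) < 2 ^ r := by positivity
  have h2j : (2 : ℝ) ^ r = 2 ^ j * 2 ^ T := by
    rw [← pow_add]; congr 1; omega
  -- the gap
  set δ : ℝ := c / 2 ^ r - q' / (2 ^ j * y) with hδ
  have hδpos : 0 < δ := by
    have h2jp : (0 : ℝ) < 2 ^ j := by positivity
    have : (q' : ℝ) / (2 ^ j * y) < c / 2 ^ r := by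
      rw [div_lt_div_iff₀ (by positivity) h2r, h2j]
      nlinarith
    linarith
  obtain ⟨n1, hn1⟩ := exists_nat_gt ((q' : ℝ) / δ)
  refine ⟨max n1 (2 ^ j * y * k0), fun n hn m A hA => ?_⟩
  by_contra hm
  push Not at hm
  have hnn1 : n1 ≤ n := le_trans (le_max_left _ _) hn
  have hnn2 : 2 ^ j * y * k0 ≤ n := le_trans (le_max_right _ _) hn
  have hDpos : 0 < 2 ^ j * y := Nat.mul_pos (by positivity) (by omega)
  set k := n / (2 ^ j * y) + 1 with hk
  have hkk0 : k0 ≤ k := by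
    have : k0 ≤ n / (2 ^ j * y) := by
      rw [Nat.le_div_iff_mul_le hDpos]
      calc k0 * (2 ^ j * y) = 2 ^ j * y * k0 := by ring
        _ ≤ n := hnn2
    omega
  have hlow : 2 ^ j * y * (k - 1) ≤ n := by
    rw [hk, Nat.add_sub_cancel]; exact Nat.mul_div_le n _
  have hup : n ≤ 2 ^ j * (y * k) := by
    have := Nat.lt_mul_div_succ n hDpos
    rw [← mul_assoc]
    exact this.le
  have hMm : 2 ^ (q' * k - 1) ≤ m := by
    have h1 : ((2 ^ (q' * k - 1) : ℕ) : ℝ) ≤ (2 : ℝ) ^ (c * n / 2 ^ r) := by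
      push_cast
      rw [← Real.rpow_natCast]
      apply Real.rpow_le_rpow_of_exponent_le (by norm_num)
      have hkpos : 1 ≤ k := by rw [hk]; exact Nat.le_add_left 1 _
      have hk1 : 1 ≤ q' * k := Nat.mul_pos hq' hkpos
      rw [Nat.cast_sub hk1, Nat.cast_mul]
      push_cast
      have h2 : (k : ℝ) ≤ n / (2 ^ j * y) + 1 := by
        rw [hk]
        push_cast
        have := Nat.cast_div_le (α := ℝ) (m := n) (n := 2 ^ j * y)
        push_cast at this
        linarith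
      have h3 : (q' : ℝ) * k ≤ q' * (n / (2 ^ j * y)) + q' := by
        have : (0 : ℝ) ≤ q' := Nat.cast_nonneg _
        nlinarith
      have h4 : (q' : ℝ) < n * δ := by
        have h5 : (q' : ℝ) / δ < n := lt_of_lt_of_le hn1 (by exact_mod_cast hnn1)
        rw [div_lt_iff₀ hδpos] at h5
        exact h5
      have h6 : (n : ℝ) * δ = c * n / 2 ^ r - q' * (n / (2 ^ j * y)) := by
        rw [hδ]; ring
      rw [h6] at h4
      linarith
    exact_mod_cast (lt_of_le_of_lt h1 hm).le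
  exact hk0 k hkk0 n _ hlow hup (hA.toQIb hMm)

end Pool.Agent.MP_7a59f9_co
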