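import Pool.Agent.Lib.MP_7a59f9_co.Cert

/-!
The certificates.
-/

namespace Pool.Agent.MP_7a59f9_co

set_option exponentiation.threshold 1000000
set_option maxRecDepth 100000

theorem r16_2 : EvGood 1411 2000 2 3095 := by
  have h : 2 ^ 2000 * (3095 - 1411).descFactorial 1411 < (3095 : ℕ).descFactorial 1411 := by
    norm_num only
  exact ev_two' 1 1411 2000 3095 (by norm_num) (by norm_num) (by norm_num) (by norm_num) h

theorem r16_4 : EvGood 1411 2000 4 16576 :=
  ev_pair' 1411 2000 2 3095 16576 270 r16_2 (by norm_num) (by norm_num) (by norm_num) (by norm_num)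
    (by norm_num) (by decide +kernel)

theorem r16 : RateBound 16 1.94 :=
  bound_of_ev' 1411 2000 4 16576 16 194 100 _ (by norm_num) (by norm_num) (by norm_num) (by norm_num) (by norm_num)
    r16_4 (by norm_num) (by decide +kernel) (by norm_num) (by norm_num)

theorem r20_2 : EvGood 1522 2000 2 3438 := by
  have h : 2 ^ 2000 * (3438 - 1522).descFactorial 1522 < (3438 : ℕ).descFactorial 1522 := by
    norm_num only
  exact ev_two' 1 1522 2000 3438 (by norm_num) (by norm_num) (by norm_num) (by norm_num) h

theorem r20_4 : EvGood 1522 2000 4 18090 :=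
  ev_pair' 1522 2000 2 3438 18090 264 r20_2 (by norm_num) (by norm_num) (by norm_num) (by norm_num)
    (by norm_num) (by decide +kernel)

theorem r20 : RateBound 20 1.77 :=
  bound_of_ev' 1522 2000 4 18090 20 177 100 _ (by norm_num) (by norm_num) (by norm_num) (by norm_num) (by norm_num)
    r20_4 (by norm_num) (by decide +kernel) (by norm_num) (by norm_num)

theorem r30_2 : EvGood 1540 2000 2 3495 := by
  have h : 2 ^ 2000 * (3495 - 1540).descFactorial 1540 < (3495 : ℕ).descFactorial 1540 := by
    norm_num only
  exact ev_two' 1 1540 2000 3495 (by norm_num) (by norm_num) (by norm_num) (by norm_num) h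

theorem r30_4 : EvGood 1540 2000 4 18340 :=
  ev_pair' 1540 2000 2 3495 18340 263 r30_2 (by norm_num) (by norm_num) (by norm_num) (by norm_num)
    (by norm_num) (by decide +kernel)

theorem r30_6 : EvGood 1540 2000 6 81335 :=
  ev_pair' 1540 2000 4 18340 81335 196 r30_4 (by norm_num) (by norm_num) (by norm_num) (by norm_num)
    (by norm_num) (by decide +kernel)

theorem r30 : RateBound 30 1.58 :=
  bound_of_ev' 1540 2000 6 81335 30 158 100 _ (by norm_num) (by norm_num) (by norm_num) (by norm_num) (by norm_num)
    r30_6 (by norm_num) (by decide +kernel) (by norm_num) (by norm_num)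

theorem r50_2 : EvGood 1719 2000 2 4092 := by
  have h : 2 ^ 2000 * (4092 - 1719).descFactorial 1719 < (4092 : ℕ).descFactorial 1719 := by
    norm_num only
  exact ev_two' 1 1719 2000 4092 (by norm_num) (by norm_num) (by norm_num) (by norm_num) h

theorem r50_4 : EvGood 1719 2000 4 20963 :=
  ev_pair' 1719 2000 2 4092 20963 255 r50_2 (by norm_num) (by norm_num) (by norm_num) (by norm_num)
    (by norm_num) (by decide +kernel)

theorem r50_6 : EvGood 1719 2000 6 92260 :=
  ev_pair' 1719 2000 4 20963 92260 192 r50_4 (by norm_num) (by norm_num) (by norm_num) (by norm_num)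
    (by norm_num) (by decide +kernel)

theorem r50 : RateBound 50 1.39 :=
  bound_of_ev' 1719 2000 6 92260 50 139 100 _ (by norm_num) (by norm_num) (by norm_num) (by norm_num) (by norm_num)
    r50_6 (by norm_num) (by decide +kernel) (by norm_num) (by norm_num)

theorem r100_2 : EvGood 1817 2000 2 4438 := by
  have h : 2 ^ 2000 * (4438 - 1817).descFactorial 1817 < (4438 : ℕ).descFactorial 1817 := by
    norm_num only
  exact ev_two' 1 1817 2000 4438 (by norm_num) (by norm_num) (by norm_num) (by norm_num) h

theorem r100_4 : EvGood 1817 2000 4 22475 :=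
  ev_pair' 1817 2000 2 4438 22475 251 r100_2 (by norm_num) (by norm_num) (by norm_num) (by norm_num)
    (by norm_num) (by decide +kernel)

theorem r100_6 : EvGood 1817 2000 6 98545 :=
  ev_pair' 1817 2000 4 22475 98545 190 r100_4 (by norm_num) (by norm_num) (by norm_num) (by norm_num)
    (by norm_num) (by decide +kernel)

theorem r100_8 : EvGood 1817 2000 8 410123 :=
  ev_pair' 1817 2000 6 98545 410123 155 r100_6 (by norm_num) (by norm_num) (by norm_num) (by norm_num)
    (by norm_num) (by decide +kernel)

theorem r100 : RateBound 100 1.25 :=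
  bound_of_ev' 1817 2000 8 410123 100 125 100 _ (by norm_num) (by norm_num) (by norm_num) (by norm_num) (by norm_num)
    r100_8 (by norm_num) (by decide +kernel) (by norm_num) (by norm_num)

theorem r200_2 : EvGood 1887 2000 2 4695 := by
  have h : 2 ^ 2000 * (4695 - 1887).descFactorial 1887 < (4695 : ℕ).descFactorial 1887 := by
    norm_num only
  exact ev_two' 1 1887 2000 4695 (by norm_num) (by norm_num) (by norm_num) (by norm_num) h

theorem r200_4 : EvGood 1887 2000 4 23592 :=
  ev_pair' 1887 2000 2 4695 23592 248 r200_2 (by norm_num) (by norm_num) (by norm_num) (by norm_num)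
    (by norm_num) (by decide +kernel)

theorem r200_6 : EvGood 1887 2000 6 103168 :=
  ev_pair' 1887 2000 4 23592 103168 188 r200_4 (by norm_num) (by norm_num) (by norm_num) (by norm_num)
    (by norm_num) (by decide +kernel)

theorem r200_8 : EvGood 1887 2000 8 428923 :=
  ev_pair' 1887 2000 6 103168 428923 154 r200_6 (by norm_num) (by norm_num) (by norm_num) (by norm_num)
    (by norm_num) (by decide +kernel)

theorem r200_10 : EvGood 1887 2000 10 1745937 :=
  ev_pair' 1887 2000 8 428923 1745937 131 r200_8 (by norm_num) (by norm_num) (by norm_num) (by norm_num)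
    (by norm_num) (by decide +kernel)

theorem r200 : RateBound 200 1.18 :=
  bound_of_ev' 1887 2000 10 1745937 200 118 100 _ (by norm_num) (by norm_num) (by norm_num) (by norm_num) (by norm_num)
    r200_10 (by norm_num) (by decide +kernel) (by norm_num) (by norm_num)

theorem r1000_2 : EvGood 9865 10000 2 25095 := by
  have h : 2 ^ 2000 * (5019 - 1973).descFactorial 1973 < (5019 : ℕ).descFactorial 1973 := by
    norm_num only
  exact ev_two' 5 1973 2000 5019 (by norm_num) (by norm_num) (by norm_num) (by norm_num) h

theorem r1000_4 : EvGood 9865 10000 4 125085 :=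
  ev_pair' 9865 10000 2 25095 125085 1232 r1000_2 (by norm_num) (by norm_num) (by norm_num) (by norm_num)
    (by norm_num) (by decide +kernel)

theorem r1000_6 : EvGood 9865 10000 6 545593 :=
  ev_pair' 9865 10000 4 125085 545593 940 r1000_4 (by norm_num) (by norm_num) (by norm_num) (by norm_num)
    (by norm_num) (by decide +kernel)

theorem r1000_8 : EvGood 9865 10000 8 2265898 :=
  ev_pair' 9865 10000 6 545593 2265898 770 r1000_6 (by norm_num) (by norm_num) (by norm_num) (by norm_num)
    (by norm_num) (by decide +kernel)

theorem r1000_10 : EvGood 9865 10000 10 9219120 :=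
  ev_pair' 9865 10000 8 2265898 9219120 656 r1000_8 (by norm_num) (by norm_num) (by norm_num) (by norm_num)
    (by norm_num) (by decide +kernel)

theorem r1000_12 : EvGood 9865 10000 12 37168094 :=
  ev_pair' 9865 10000 10 9219120 37168094 572 r1000_10 (by norm_num) (by norm_num) (by norm_num) (by norm_num)
    (by norm_num) (by decide +kernel)

theorem r1000 : RateBound 1000 1.11 :=
  bound_of_ev' 9865 10000 12 37168094 1000 111 100 _ (by norm_num) (by norm_num) (by norm_num) (by norm_num) (by norm_num)
    r1000_12 (by norm_num) (by decide +kernel) (by norm_num) (by norm_num)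

theorem r10000_2 : EvGood 9980 10000 2 25540 := by
  have h : 2 ^ 2000 * (5108 - 1996).descFactorial 1996 < (5108 : ℕ).descFactorial 1996 := by
    norm_num only
  exact ev_two' 5 1996 2000 5108 (by norm_num) (by norm_num) (by norm_num) (by norm_num) h

theorem r10000_4 : EvGood 9980 10000 4 127017 :=
  ev_pair' 9980 10000 2 25540 127017 1228 r10000_2 (by norm_num) (by norm_num) (by norm_num) (by norm_num)
    (by norm_num) (by decide +kernel)

theorem r10000_6 : EvGood 9980 10000 6 553604 :=
  ev_pair' 9980 10000 4 127017 553604 938 r10000_4 (by norm_num) (by norm_num) (by norm_num) (by norm_num)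
    (by norm_num) (by decide +kernel)

theorem r10000_8 : EvGood 9980 10000 8 2298486 :=
  ev_pair' 9980 10000 6 553604 2298486 769 r10000_6 (by norm_num) (by norm_num) (by norm_num) (by norm_num)
    (by norm_num) (by decide +kernel)

theorem r10000_10 : EvGood 9980 10000 10 9350457 :=
  ev_pair' 9980 10000 8 2298486 9350457 655 r10000_8 (by norm_num) (by norm_num) (by norm_num) (by norm_num)
    (by norm_num) (by decide +kernel)

theorem r10000_12 : EvGood 9980 10000 12 37695504 :=
  ev_pair' 9980 10000 10 9350457 37695504 572 r10000_10 (by norm_num) (by norm_num) (by norm_num) (by norm_num)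
    (by norm_num) (by decide +kernel)

theorem r10000_14 : EvGood 9980 10000 14 151336556 :=
  ev_pair' 9980 10000 12 37695504 151336556 508 r10000_12 (by norm_num) (by norm_num) (by norm_num) (by norm_num)
    (by norm_num) (by decide +kernel)

theorem r10000_16 : EvGood 9980 10000 16 606400227 :=
  ev_pair' 9980 10000 14 151336556 606400227 458 r10000_14 (by norm_num) (by norm_num) (by norm_num) (by norm_num)
    (by norm_num) (by decide +kernel)

theorem r10000_18 : EvGood 9980 10000 18 2427613184 :=
  ev_pair' 9980 10000 16 606400227 2427613184 417 r10000_16 (by norm_num) (by norm_num) (by norm_num) (by norm_num)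
    (by norm_num) (by decide +kernel)

theorem r10000 : RateBound 10000 1.08 :=
  bound_of_ev' 9980 10000 18 2427613184 10000 108 100 _ (by norm_num) (by norm_num) (by norm_num) (by norm_num) (by norm_num)
    r10000_18 (by norm_num) (by decide +kernel) (by norm_num) (by norm_num)

end Pool.Agent.MP_7a59f9_co
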