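import Pool.Agent.Lib.MP_7a59f9_co.Rows
import Pool.Agent.Lib.MP_7a59f9_co.EffFinal

/-!
One more certificate (`r = 15`), and the rate function for all `r ≥ 4`.
-/

namespace Pool.Agent.MP_7a59f9_co

set_option exponentiation.threshold 1000000
set_option maxRecDepth 100000

theorem r15_2 : EvGood 1375 2000 2 2987 := by
  have h : 2 ^ 2000 * (2987 - 1375).descFactorial 1375 < (2987 : ℕ).descFactorial 1375 := by
    norm_num only
  exact ev_two' 1 1375 2000 2987 (by norm_num) (by norm_num) (by norm_num) (by norm_num) h

theorem r15_4 : EvGood 1375 2000 4 16097 :=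
  ev_pair' 1375 2000 2 2987 16097 272 r15_2 (by norm_num) (by norm_num) (by norm_num) (by norm_num)
    (by norm_num) (by decide +kernel)

theorem r15 : RateBound 15 1.99 :=
  bound_of_ev' 1375 2000 4 16097 15 199 100 _ (by norm_num) (by norm_num) (by norm_num) (by norm_num) (by norm_num)
    r15_4 (by norm_num) (by decide +kernel) (by norm_num) (by norm_num)

end Pool.Agent.MP_7a59f9_co
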