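import Mathlib

/-!
The linear programming (MRRW) bound for sign vectors, in the form of a ten line argument with a nonnegative
vector on the subsets of the ground set.
-/

namespace Pool.Agent.MP_7a59f9_co

open Finset

set_option linter.unusedSectionVars false

variable {P : Type*} [Fintype P] [DecidableEq P]

/-- Character of the cube. -/
def chi (K : Finset P) (w : P → ℝ) : ℝ := ∏ x ∈ K, w x

theorem chi_mul (K : Finset P) (u v : P → ℝ) : chi K (fun x => u x * v x) = chi K u * chi K v := by
  simp [chi, Finset.prod_mul_distrib]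

theorem chi_sq (K : Finset P) (w : P → ℝ) (hw : ∀ x, w x * w x = 1) : chi K w * chi K w = 1 := by
  rw [← chi_mul]
  unfold chi
  exact Finset.prod_eq_one (fun x _ => hw x)

theorem chi_symmDiff (K : Finset P) (w : P → ℝ) (hw : ∀ x, w x * w x = 1) (x : P) :
    chi (symmDiff K {x}) w = w x * chi K w := by
  unfold chi
  by_cases hx : x ∈ K
  · have h1 : symmDiff K {x} = K.erase x := by
      ext y
      simp only [Finset.mem_symmDiff, Finset.mem_singleton, Finset.mem_erase]
      by_cases hy : y = x
      · subst hy; simp [hx]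
      · simp [hy]
    rw [h1, ← Finset.mul_prod_erase K w hx, ← mul_assoc, hw x, one_mul]
  · have h1 : symmDiff K {x} = insert x K := by
      ext y
      simp only [Finset.mem_symmDiff, Finset.mem_singleton, Finset.mem_insert]
      by_cases hy : y = x
      · subst hy; simp [hx]
      · simp [hy]
    rw [h1, Finset.prod_insert hx]

theorem sum_symmDiff (a : Finset P → ℝ) (w : P → ℝ) (hw : ∀ x, w x * w x = 1) :
    (∑ x, w x) * (∑ K : Finset P, a K * chi K w) =
      ∑ K : Finset P, (∑ x, a (symmDiff K {x})) * chi K w := by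
  have h1 : ∀ x : P, w x * (∑ K : Finset P, a K * chi K w) =
      ∑ K : Finset P, a (symmDiff K {x}) * chi K w := by
    intro x
    rw [Finset.mul_sum]
    have : ∑ K : Finset P, a (symmDiff K {x}) * chi K w =
        ∑ K : Finset P, a (symmDiff (symmDiff K {x}) {x}) * chi (symmDiff K {x}) w := by
      refine (Fintype.sum_equiv (Equiv.mk (fun K => symmDiff K {x}) (fun K => symmDiff K {x})
        (fun K => by simp) (fun K => by simp)) _ _ ?_).symm
      intro K
      rfl
    rw [this]
    refine Finset.sum_congr rfl (fun K _ => ?_)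
    rw [symmDiff_symmDiff_cancel_right, chi_symmDiff K w hw x]
    ring
  rw [Finset.sum_mul]
  simp_rw [h1, Finset.sum_mul]
  rw [Finset.sum_comm]

theorem lp_bound {J : Type*} [Fintype J] [DecidableEq J]
    (u : J → P → ℝ) (hu : ∀ i x, u i x * u i x = 1) (L : ℝ)
    (hL : ∀ i j, i ≠ j → ∑ x, u i x * u j x ≤ L)
    (a : Finset P → ℝ) (D : Finset (Finset P)) (ha0 : ∀ K, 0 ≤ a K) (hsupp : ∀ K, K ∉ D → a K = 0)
    (lam : ℝ) (hlam : ∀ K, lam * a K ≤ ∑ x, a (symmDiff K {x})) (hlt : L < lam)
    (hpos : 0 < ∑ K : Finset P, a K ^ 2) (hLN : L ≤ Fintype.card P) :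
    (Fintype.card J : ℝ) * (lam - L) ≤ (Fintype.card P - L) * D.card := by
  classical
  set b : Finset P → ℝ := fun K => (∑ x, a (symmDiff K {x})) - L * a K with hb
  have hb0 : ∀ K, (lam - L) * a K ≤ b K := by
    intro K
    have := hlam K
    simp only [hb]
    nlinarith
  have hb1 : ∀ K, 0 ≤ b K := fun K =>
    le_trans (mul_nonneg (sub_nonneg.2 hlt.le) (ha0 K)) (hb0 K)
  set F : (P → ℝ) → ℝ := fun w => ((∑ x, w x) - L) * (∑ K : Finset P, a K * chi K w) ^ 2 with hF
  have hF1 : ∀ w : P → ℝ, (∀ x, w x * w x = 1) →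
      F w = ∑ K : Finset P, ∑ K' : Finset P, b K * a K' * (chi K w * chi K' w) := by
    intro w hw
    have h2 : ((∑ x, w x) - L) * (∑ K : Finset P, a K * chi K w) = ∑ K : Finset P, b K * chi K w := by
      rw [sub_mul, sum_symmDiff a w hw, Finset.mul_sum, ← Finset.sum_sub_distrib]
      refine Finset.sum_congr rfl (fun K _ => ?_)
      simp only [hb]
      ring
    simp only [hF]
    rw [sq, ← mul_assoc, h2, Finset.sum_mul_sum]
    refine Finset.sum_congr rfl (fun K _ => Finset.sum_congr rfl (fun K' _ => ?_))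
    ring
  have huu : ∀ i j : J, ∀ x, (u i x * u j x) * (u i x * u j x) = 1 := by
    intro i j x
    have h1 := hu i x
    have h2 := hu j x
    calc (u i x * u j x) * (u i x * u j x) = (u i x * u i x) * (u j x * u j x) := by ring
      _ = 1 := by rw [h1, h2]; ring
  -- lower bound
  have hlow : ((Fintype.card J : ℝ) ^ 2 * ((lam - L) * ∑ K : Finset P, a K ^ 2)) ≤
      ∑ i : J, ∑ j : J, F (fun x => u i x * u j x) := by
    have h3 : ∑ i : J, ∑ j : J, F (fun x => u i x * u j x) =
        ∑ K : Finset P, ∑ K' : Finset P, b K * a K' * (∑ i : J, chi K (u i) * chi K' (u i)) ^ 2 := by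
      have h4 : ∀ i j : J, F (fun x => u i x * u j x) = ∑ K : Finset P, ∑ K' : Finset P,
          b K * a K' * ((chi K (u i) * chi K' (u i)) * (chi K (u j) * chi K' (u j))) := by
        intro i j
        rw [hF1 _ (huu i j)]
        refine Finset.sum_congr rfl (fun K _ => Finset.sum_congr rfl (fun K' _ => ?_))
        rw [chi_mul, chi_mul]
        ring
      simp_rw [h4]
      have h5 : ∀ i : J, ∑ j : J, ∑ K : Finset P, ∑ K' : Finset P,
          b K * a K' * ((chi K (u i) * chi K' (u i)) * (chi K (u j) * chi K' (u j))) =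
          ∑ K : Finset P, ∑ K' : Finset P, ∑ j : J,
          b K * a K' * ((chi K (u i) * chi K' (u i)) * (chi K (u j) * chi K' (u j))) := by
        intro i
        rw [Finset.sum_comm]
        refine Finset.sum_congr rfl (fun K _ => ?_)
        rw [Finset.sum_comm]
      simp_rw [h5]
      rw [Finset.sum_comm]
      refine Finset.sum_congr rfl (fun K _ => ?_)
      rw [Finset.sum_comm]
      refine Finset.sum_congr rfl (fun K' _ => ?_)
      rw [sq, Finset.sum_mul_sum, Finset.mul_sum]
      refine Finset.sum_congr rfl (fun i _ => ?_)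
      rw [Finset.mul_sum]
    rw [h3]
    have h6 : ∀ K : Finset P, (Fintype.card J : ℝ) ^ 2 * ((lam - L) * a K ^ 2) ≤
        ∑ K' : Finset P, b K * a K' * (∑ i : J, chi K (u i) * chi K' (u i)) ^ 2 := by
      intro K
      have h7 : b K * a K * (∑ i : J, chi K (u i) * chi K (u i)) ^ 2 ≤
          ∑ K' : Finset P, b K * a K' * (∑ i : J, chi K (u i) * chi K' (u i)) ^ 2 :=
        Finset.single_le_sum (f := fun K' : Finset P =>
          b K * a K' * (∑ i : J, chi K (u i) * chi K' (u i)) ^ 2)
          (fun K' _ => mul_nonneg (mul_nonneg (hb1 K) (ha0 K')) (sq_nonneg _)) (Finset.mem_univ K)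
      refine le_trans ?_ h7
      have h8 : ∑ i : J, chi K (u i) * chi K (u i) = (Fintype.card J : ℝ) := by
        simp_rw [fun i : J => chi_sq K (u i) (hu i)]
        simp
      rw [h8]
      have h9 := mul_le_mul_of_nonneg_right (hb0 K) (ha0 K)
      have h10 : 0 ≤ (Fintype.card J : ℝ) ^ 2 := sq_nonneg _
      nlinarith [mul_le_mul_of_nonneg_right h9 h10]
    calc (Fintype.card J : ℝ) ^ 2 * ((lam - L) * ∑ K : Finset P, a K ^ 2)
        = ∑ K : Finset P, (Fintype.card J : ℝ) ^ 2 * ((lam - L) * a K ^ 2) := by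
          rw [Finset.mul_sum, Finset.mul_sum]
      _ ≤ _ := Finset.sum_le_sum (fun K _ => h6 K)
  -- upper bound
  have hup : ∑ i : J, ∑ j : J, F (fun x => u i x * u j x) ≤
      (Fintype.card J : ℝ) * ((Fintype.card P - L) * (D.card * ∑ K : Finset P, a K ^ 2)) := by
    have h11 : ∀ i : J, ∑ j : J, F (fun x => u i x * u j x) ≤
        (Fintype.card P - L) * (D.card * ∑ K : Finset P, a K ^ 2) := by
      intro i
      rw [← Finset.add_sum_erase _ _ (Finset.mem_univ i)]
      have h12 : ∑ j ∈ Finset.univ.erase i, F (fun x => u i x * u j x) ≤ 0 := by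
        refine Finset.sum_nonpos (fun j hj => ?_)
        have hij : i ≠ j := fun h => (Finset.mem_erase.1 hj).1 h.symm
        simp only [hF]
        exact mul_nonpos_of_nonpos_of_nonneg (by linarith [hL i j hij]) (sq_nonneg _)
      have h13 : F (fun x => u i x * u i x) ≤
          (Fintype.card P - L) * (D.card * ∑ K : Finset P, a K ^ 2) := by
        simp only [hF]
        have h14 : ∑ x, u i x * u i x = (Fintype.card P : ℝ) := by
          simp_rw [hu i]; simp
        have h15 : ∀ K : Finset P, chi K (fun x => u i x * u i x) = 1 := by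
          intro K
          rw [chi_mul]; exact chi_sq K (u i) (hu i)
        simp_rw [h14, h15, mul_one]
        refine mul_le_mul_of_nonneg_left ?_ (sub_nonneg.2 hLN)
        have h16 : ∑ K : Finset P, a K = ∑ K ∈ D, a K := by
          refine (Finset.sum_subset (Finset.subset_univ D) (fun K _ hK => hsupp K hK)).symm
        rw [h16]
        refine le_trans (sq_sum_le_card_mul_sum_sq) ?_
        refine mul_le_mul_of_nonneg_left ?_ (Nat.cast_nonneg _)
        exact Finset.sum_le_sum_of_subset_of_nonneg (Finset.subset_univ D) (fun K _ _ => sq_nonneg _)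
      linarith
    calc _ ≤ ∑ i : J, (Fintype.card P - L) * (D.card * ∑ K : Finset P, a K ^ 2) :=
          Finset.sum_le_sum (fun i _ => h11 i)
      _ = _ := by simp
  have hfin := le_trans hlow hup
  rcases Nat.eq_zero_or_pos (Fintype.card J) with h0 | h0
  · rw [h0]
    simp only [Nat.cast_zero, zero_mul]
    exact mul_nonneg (sub_nonneg.2 hLN) (Nat.cast_nonneg _)
  · have hJ : (0 : ℝ) < Fintype.card J := by exact_mod_cast h0
    set S := ∑ K : Finset P, a K ^ 2 with hS
    have h17 : ((Fintype.card J : ℝ) * (lam - L)) * ((Fintype.card J : ℝ) * S) ≤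
        ((Fintype.card P - L) * D.card) * ((Fintype.card J : ℝ) * S) := by
      nlinarith
    exact le_of_mul_le_mul_right h17 (mul_pos hJ hpos)

end Pool.Agent.MP_7a59f9_co
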